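import Pool.Agent.ColRes81.Ker

/-!
# The Collatz residue is bounded: kernel computation up to 2^17
-/

set_option autoImplicit false

namespace ColRes81

lemma kacc : accAll 229960000 100 11 1 = true := by decide +kernel

lemma k12 : all (2 ^ 12) 48 11 (2 ^ 12 + 1) = true := by decide +kernel

lemma k13 : all (2 ^ 13) 67 12 (2 ^ 13 + 1) = true := by decide +kernel

lemma k14 : all (2 ^ 14) 57 13 (2 ^ 14 + 1) = true := by decide +kernel

lemma k15 : all (2 ^ 15) 96 14 (2 ^ 15 + 1) = true := by decide +kernel

lemma k16 : all (2 ^ 16) 80 15 (2 ^ 16 + 1) = true := by decide +kernel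


end ColRes81
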