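import Pool.Agent.ColRes81.Ker

/-!
# The Collatz residue is bounded: kernel computation up to 2^19, part 1 of 2
-/

set_option autoImplicit false

namespace ColRes81

lemma k18a : all (2 ^ 18) 110 16 (2 ^ 18 + 0 * 2 ^ 17 + 1) = true := by decide +kernel


end ColRes81
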