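import Pool.Agent.ColRes81.Tail
import Pool.Agent.ColRes81.CertData

/-!
# The Collatz residue is bounded: the sum over the terms `≥ 2^20`

`∑ 1/c_i = ∑_(t < M) g(t+1)/(t(t+1)) + g(M+1)/M ≤ 19967/10000`.
-/

set_option autoImplicit false

namespace ColRes81

lemma inv_eq (a M : ℕ) (ha : 1 ≤ a) (hM : a ≤ M) :
    (1 : ℝ) / a = ∑ t ∈ Finset.Ico a M, 1 / ((t : ℝ) * (t + 1)) + 1 / M := by
  induction M, hM using Nat.le_induction with
  | base => simp
  | succ M hM ih =>
    rw [Finset.sum_Ico_succ_top hM, ih]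
    have h1 : (0 : ℝ) < M := by exact_mod_cast (lt_of_lt_of_le ha hM)
    push_cast
    have h2 : (1 : ℝ) / M = 1 / (M * (M + 1)) + 1 / (M + 1) := by
      field_simp
      ring
    rw [h2]
    ring

/-- The terms of the sum. -/
noncomputable def f (c q t : ℕ) : ℝ := (g c q (t + 1) : ℝ) * (1 / ((t : ℝ) * (t + 1)))

lemma f_nonneg (c q t : ℕ) : 0 ≤ f c q t := by unfold f; positivity

lemma sum_eq {c q M : ℕ} (hodd : c % 2 = 1) (hM : ∀ i < q, Syr^[i] c ≤ M) :
    ∑ i ∈ Finset.range q, (1 : ℝ) / (Syr^[i] c : ℕ) = ∑ t ∈ Finset.Ico 1 M, f c q t + q * (1 / M) := by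
  have h1 : ∀ i ∈ Finset.range q, (1 : ℝ) / (Syr^[i] c : ℕ) =
      ∑ t ∈ Finset.Ico 1 M, (if Syr^[i] c < t + 1 then 1 / ((t : ℝ) * (t + 1)) else 0) + 1 / M := by
    intro i hi
    have h2 : 1 ≤ Syr^[i] c := by
      have := Syr_iter_odd hodd i
      omega
    rw [inv_eq _ M h2 (hM i (Finset.mem_range.1 hi)), ← Finset.sum_filter]
    congr 1
    apply Finset.sum_congr _ fun _ _ => rfl
    ext t
    rw [Finset.mem_filter, Finset.mem_Ico, Finset.mem_Ico]
    omega
  rw [Finset.sum_congr rfl h1, Finset.sum_add_distrib, Finset.sum_comm, Finset.sum_const, Finset.card_range,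
    nsmul_eq_mul]
  congr 1
  refine Finset.sum_congr rfl fun t _ => ?_
  rw [← Finset.sum_filter, Finset.sum_const, nsmul_eq_mul]
  rfl

lemma sum_inv_le_log (a m : ℕ) (ha : 2 ≤ a) :
    ∑ t ∈ Finset.Ico a (a + m), (1 : ℝ) / t ≤ Real.log ((a : ℝ) + m - 1) - Real.log ((a : ℝ) - 1) := by
  induction m with
  | zero => simp
  | succ m ih =>
    rw [← add_assoc, Finset.sum_Ico_succ_top (by omega)]
    have ha' : (2 : ℝ) ≤ a := by exact_mod_cast ha
    have hm : (0 : ℝ) ≤ m := Nat.cast_nonneg _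
    have h1 : (0 : ℝ) < (a : ℝ) + m := by linarith
    have h2 : (0 : ℝ) < (a : ℝ) + m - 1 := by linarith
    have h3 := Real.one_sub_inv_le_log_of_pos (div_pos h1 h2)
    rw [Real.log_div h1.ne' h2.ne', inv_div] at h3
    have h4 : 1 - ((a : ℝ) + m - 1) / ((a : ℝ) + m) = 1 / ((a : ℝ) + m) := by
      field_simp
      ring
    push_cast
    have h5 : (a : ℝ) + (m + 1) - 1 = a + m := by ring
    rw [h5]
    rw [h4] at h3
    linarith

/-- `∑ 1/t` over a dyadic cell. -/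
lemma sum_cell (b : ℕ) (hb : 20 ≤ b) :
    ∑ t ∈ Finset.Ico (2 ^ b - 1) (2 ^ (b + 1) - 1), (1 : ℝ) / ((t : ℕ) : ℝ) ≤ 69315 / 100000 := by
  have h0 : 2 ^ 20 ≤ 2 ^ b := Nat.pow_le_pow_right (by norm_num) hb
  norm_num at h0
  have h1 : 2 ^ (b + 1) - 1 = (2 ^ b - 1) + 2 ^ b := by rw [pow_succ]; omega
  rw [h1]
  refine (sum_inv_le_log _ _ (by omega)).trans ?_
  have h2 : ((2 ^ b - 1 : ℕ) : ℝ) = 2 ^ b - 1 := by
    rw [Nat.cast_sub (by omega)]
    push_cast
    ring
  have h0' : (1048576 : ℝ) ≤ 2 ^ b := by exact_mod_cast h0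
  rw [h2]
  push_cast
  have h3 : (2 : ℝ) ^ b - 1 + 2 ^ b - 1 = 2 * (2 ^ b - 1) := by ring
  have h4 : (0 : ℝ) < 2 ^ b - 1 := by linarith
  have h5 : (0 : ℝ) < 2 ^ b - 2 := by linarith
  have h6 : (2 : ℝ) ^ b - 1 - 1 = 2 ^ b - 2 := by ring
  rw [h3, h6, Real.log_mul (by norm_num) h4.ne']
  have h7 := Real.log_le_sub_one_of_pos (div_pos h4 h5)
  rw [Real.log_div h4.ne' h5.ne'] at h7
  have h8 : ((2 : ℝ) ^ b - 1) / (2 ^ b - 2) - 1 = 1 / (2 ^ b - 2) := by
    field_simp
    ring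
  have h9 : (1 : ℝ) / (2 ^ b - 2) ≤ 1 / 1048574 := one_div_le_one_div_of_le (by norm_num) (by linarith)
  have h10 := Real.log_two_lt_d9
  rw [h8] at h7
  have h11 : (1 : ℝ) / 1048574 ≤ 96 / 100000000 := by norm_num
  linarith

lemma cells_sum {c q : ℕ} (l : List (ℕ × ℕ × ℕ)) : ∀ b : ℕ, 20 ≤ b → cellsOK (g c q) l b →
    ∑ t ∈ Finset.Ico (2 ^ b - 1) (2 ^ (b + l.length) - 1), f c q t ≤
      (((l.map fun x => x.2.2).sum : ℕ) : ℝ) / Q * (69315 / 100000) := by
  induction l with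
  | nil => intro b _ _; simp
  | cons x l ih =>
    intro b hb h
    obtain ⟨h1, h2⟩ := h
    have h3 := ih (b + 1) (by omega) h2
    have h4 : 2 ^ b ≤ 2 ^ (b + 1) := Nat.pow_le_pow_right (by norm_num) (by omega)
    have h5 : 2 ^ (b + 1) ≤ 2 ^ (b + (x :: l).length) :=
      Nat.pow_le_pow_right (by norm_num) (by rw [List.length_cons]; omega)
    rw [← Finset.sum_Ico_consecutive _ (Nat.sub_le_sub_right h4 1) (Nat.sub_le_sub_right h5 1)]
    have h6 : b + (x :: l).length = b + 1 + l.length := by rw [List.length_cons]; ring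
    rw [h6]
    have h7 : ∑ t ∈ Finset.Ico (2 ^ b - 1) (2 ^ (b + 1) - 1), f c q t ≤
        (x.2.2 : ℝ) / Q * (69315 / 100000) := by
      calc _ ≤ ∑ t ∈ Finset.Ico (2 ^ b - 1) (2 ^ (b + 1) - 1), (x.2.2 : ℝ) / Q * (1 / ((t : ℕ) : ℝ)) := by
            apply Finset.sum_le_sum
            intro t ht
            rw [Finset.mem_Ico] at ht
            have hp : 2 ^ 20 ≤ 2 ^ b := Nat.pow_le_pow_right (by norm_num) hb
            norm_num at hp
            have h8 := h1 (t + 1) (by omega) (by omega)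
            have h9 : ((Q * g c q (t + 1) : ℕ) : ℝ) ≤ ((x.2.2 * (t + 1) : ℕ) : ℝ) := by exact_mod_cast h8
            push_cast at h9
            have ht0 : (0 : ℝ) < t := by
              have : 0 < t := by omega
              exact_mod_cast this
            unfold f
            have h10 : (g c q (t + 1) : ℝ) ≤ x.2.2 / Q * (t + 1) := by
              rw [div_mul_eq_mul_div, le_div_iff₀ (by norm_num)]
              push_cast
              linarith
            calc (g c q (t + 1) : ℝ) * (1 / (t * (t + 1))) ≤ x.2.2 / Q * (t + 1) * (1 / (t * (t + 1))) :=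
                  mul_le_mul_of_nonneg_right h10 (by positivity)
              _ = _ := by field_simp
        _ = (x.2.2 : ℝ) / Q * ∑ t ∈ Finset.Ico (2 ^ b - 1) (2 ^ (b + 1) - 1), (1 : ℝ) / ((t : ℕ) : ℝ) := by
            rw [Finset.mul_sum]
        _ ≤ _ := mul_le_mul_of_nonneg_left (sum_cell b hb) (by positivity)
    have h8 : ((((x :: l).map fun x => x.2.2).sum : ℕ) : ℝ) = x.2.2 + (((l.map fun x => x.2.2).sum : ℕ) : ℝ) := by
      rw [List.map_cons, List.sum_cons]
      push_cast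
      ring
    rw [h8, add_div, add_mul]
    linarith

lemma sum_phi (a m : ℕ) (ha : 1 ≤ a) :
    ∑ t ∈ Finset.Ico a (a + m), (1 : ℝ) / ((t : ℝ) * (t + 1)) = 1 / a - 1 / ((a : ℝ) + m) := by
  have h := inv_eq a (a + m) ha (by omega)
  push_cast at h
  linarith

lemma tail_sum {c q : ℕ} (h : Orb c q (2 ^ 20)) (B m : ℕ) (hB : 20 ≤ B) :
    ∑ t ∈ Finset.Ico (2 ^ B - 1) (2 ^ (B + m) - 1), f c q t ≤
      97 / 50 * (97 / 100) ^ B * ((1 - (97 / 100) ^ m) / (3 / 100)) := by
  induction m with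
  | zero => simp
  | succ m ih =>
    have h4 : 2 ^ B ≤ 2 ^ (B + m) := Nat.pow_le_pow_right (by norm_num) (by omega)
    have h5 : 2 ^ (B + m) ≤ 2 ^ (B + (m + 1)) := Nat.pow_le_pow_right (by norm_num) (by omega)
    rw [← Finset.sum_Ico_consecutive _ (Nat.sub_le_sub_right h4 1) (Nat.sub_le_sub_right h5 1)]
    have h7 : ∑ t ∈ Finset.Ico (2 ^ (B + m) - 1) (2 ^ (B + (m + 1)) - 1), f c q t ≤
        97 / 50 * (97 / 100) ^ (B + m) := by
      obtain ⟨b, hb⟩ : ∃ b, b = B + m := ⟨_, rfl⟩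
      rw [← add_assoc, ← hb]
      have hp : 2 ^ 20 ≤ 2 ^ b := Nat.pow_le_pow_right (by norm_num) (by omega)
      norm_num at hp
      have h1 : 2 ^ (b + 1) - 1 = (2 ^ b - 1) + 2 ^ b := by rw [pow_succ]; omega
      calc _ ≤ ∑ t ∈ Finset.Ico (2 ^ b - 1) (2 ^ (b + 1) - 1),
            (97 / 50 : ℝ) ^ (b + 1) * (1 / (((t : ℕ) : ℝ) * (t + 1))) := by
            apply Finset.sum_le_sum
            intro t ht
            rw [Finset.mem_Ico] at ht
            unfold f
            apply mul_le_mul_of_nonneg_right _ (by positivity)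
            refine le_trans ?_ (h.tail (b + 1))
            exact_mod_cast g_mono c q (by omega : t + 1 ≤ 2 ^ (b + 1))
        _ = (97 / 50 : ℝ) ^ (b + 1) * (1 / ((2 ^ b - 1 : ℕ) : ℝ) - 1 / (((2 ^ b - 1 : ℕ) : ℝ) + ((2 ^ b : ℕ) : ℝ))) := by
            rw [← Finset.mul_sum, h1, sum_phi _ _ (by omega)]
        _ ≤ (97 / 50 : ℝ) ^ (b + 1) * (1 / 2 ^ b) := by
            apply mul_le_mul_of_nonneg_left _ (by positivity)
            have h2 : ((2 ^ b - 1 : ℕ) : ℝ) = 2 ^ b - 1 := by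
              rw [Nat.cast_sub (by omega)]
              push_cast
              ring
            have h0' : (1048576 : ℝ) ≤ 2 ^ b := by exact_mod_cast hp
            rw [h2]
            push_cast
            obtain ⟨y, hy⟩ : ∃ y : ℝ, y = 2 ^ b := ⟨_, rfl⟩
            rw [← hy] at h0' ⊢
            have e1 : 1 / (y - 1) - 1 / (y - 1 + y) = y / ((y - 1) * (y - 1 + y)) := by
              have h1 : y - 1 ≠ 0 := by linarith
              have h2 : y - 1 + y ≠ 0 := by linarith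
              field_simp
              ring
            rw [e1, div_le_div_iff₀ (by apply mul_pos <;> linarith) (by linarith)]
            nlinarith
        _ = _ := by
            rw [pow_succ, mul_one_div, mul_comm _ (97 / 50 : ℝ), mul_div_assoc, ← div_pow]
            norm_num
    have h8 : (97 / 50 : ℝ) * (97 / 100) ^ B * ((1 - (97 / 100) ^ (m + 1)) / (3 / 100)) =
        97 / 50 * (97 / 100) ^ B * ((1 - (97 / 100) ^ m) / (3 / 100)) + 97 / 50 * (97 / 100) ^ (B + m) := by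
      rw [pow_add, pow_succ]
      ring
    rw [h8]
    exact add_le_add ih h7

lemma pow_300 : ((97 : ℝ) / 100) ^ 300 ≤ 108 / 1000000 := by
  have h1 : ((97 : ℝ) / 100) ^ 300 = ((97 / 100) ^ 100) ^ 3 := by rw [← pow_mul]
  rw [h1]
  norm_num

theorem Orb.sum_le {c q : ℕ} (h : Orb c q (2 ^ 20)) :
    ∑ i ∈ Finset.range q, (1 : ℝ) / (Syr^[i] c : ℕ) ≤ 19967 / 10000 := by
  obtain ⟨B, hB⟩ : ∃ B, B = 300 := ⟨_, rfl⟩
  -- a power of two above all terms
  obtain ⟨B', hB', hM⟩ : ∃ B', B ≤ B' ∧ ∀ i < q, Syr^[i] c < 2 ^ B' - 1 := by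
    obtain ⟨A, hA⟩ : ∃ A, ∀ i < q, Syr^[i] c ≤ A := by
      refine ⟨∑ i ∈ Finset.range q, Syr^[i] c, fun i hi => ?_⟩
      exact Finset.single_le_sum (f := fun i => Syr^[i] c) (fun _ _ => Nat.zero_le _) (Finset.mem_range.2 hi)
    refine ⟨A + B, by omega, fun i hi => ?_⟩
    have h1 := hA i hi
    have h2 : A + B < 2 ^ (A + B) := Nat.lt_two_pow_self
    omega
  obtain ⟨m, rfl⟩ : ∃ m, B' = B + m := Nat.exists_eq_add_of_le hB'
  rw [sum_eq h.odd fun i hi => (hM i hi).le]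
  have hp0 : 2 ^ 20 ≤ 2 ^ B := Nat.pow_le_pow_right (by norm_num) (by omega)
  have hp3 : 2 ^ B ≤ 2 ^ (B + m) := Nat.pow_le_pow_right (by norm_num) (by omega)
  have h1 : ∑ t ∈ Finset.Ico 1 (2 ^ (B + m) - 1), f c q t =
      ∑ t ∈ Finset.Ico 1 (2 ^ 20 - 1), f c q t + (∑ t ∈ Finset.Ico (2 ^ 20 - 1) (2 ^ B - 1), f c q t +
        ∑ t ∈ Finset.Ico (2 ^ B - 1) (2 ^ (B + m) - 1), f c q t) := by
    rw [Finset.sum_Ico_consecutive _ (Nat.sub_le_sub_right hp0 1) (Nat.sub_le_sub_right hp3 1),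
      Finset.sum_Ico_consecutive _ (by norm_num) (Nat.sub_le_sub_right (hp0.trans hp3) 1)]
  have h2 : ∑ t ∈ Finset.Ico 1 (2 ^ 20 - 1), f c q t = 0 := by
    refine Finset.sum_eq_zero fun t ht => ?_
    rw [Finset.mem_Ico] at ht
    unfold f
    rw [h.g_zero (by omega), Nat.cast_zero, zero_mul]
  have hcells := h.cells cert 20 0 0 cert_chk (fun N h1 h2 => by rw [h.g_zero (by omega)]; simp)
    (fun N h1 h2 => by rw [h.g_zero (by omega)]; simp)
  have h3 := cells_sum cert 20 le_rfl hcells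
  have h9 : 20 + 280 = B := by omega
  rw [cert_len, cert_sum, h9] at h3
  have h4 := tail_sum h B m (by omega)
  have h5 : (97 / 50 : ℝ) * (97 / 100) ^ B * ((1 - (97 / 100) ^ m) / (3 / 100)) ≤
      97 / 50 * (97 / 100) ^ B * (1 / (3 / 100)) := by
    apply mul_le_mul_of_nonneg_left _ (by positivity)
    apply div_le_div_of_nonneg_right _ (by norm_num)
    have : (0 : ℝ) < (97 / 100) ^ m := by positivity
    linarith
  have h6 : (q : ℝ) * (1 / ((2 ^ (B + m) - 1 : ℕ) : ℝ)) ≤ 2 * (97 / 100) ^ B := by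
    have h7 : (q : ℝ) ≤ (97 / 50) ^ (B + m) := by
      refine le_trans (le_of_eq ?_) (h.tail (B + m))
      unfold g
      rw [Finset.filter_true_of_mem, Finset.card_range]
      intro i hi
      have := hM i (Finset.mem_range.1 hi)
      omega
    have h8 : (2 : ℝ) ^ (B + m) / 2 ≤ ((2 ^ (B + m) - 1 : ℕ) : ℝ) := by
      rw [Nat.cast_sub (by omega)]
      push_cast
      have : (2 : ℝ) ≤ 2 ^ (B + m) := by
        calc (2 : ℝ) = 2 ^ 1 := by norm_num
          _ ≤ 2 ^ (B + m) := pow_le_pow_right₀ (by norm_num) (by omega)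
      linarith
    calc (q : ℝ) * (1 / ((2 ^ (B + m) - 1 : ℕ) : ℝ)) ≤ (97 / 50) ^ (B + m) * (1 / (2 ^ (B + m) / 2)) := by
          apply mul_le_mul h7 _ (by positivity) (by positivity)
          exact one_div_le_one_div_of_le (by positivity) h8
      _ = 2 * (97 / 100) ^ (B + m) := by
          rw [mul_one_div, div_div_eq_mul_div, mul_comm, mul_div_assoc, ← div_pow]
          norm_num
      _ ≤ 2 * (97 / 100) ^ B := by
          apply mul_le_mul_of_nonneg_left _ (by norm_num)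
          exact pow_le_pow_of_le_one (by norm_num) (by norm_num) (by omega)
  have h7 : ((97 : ℝ) / 100) ^ B ≤ 108 / 1000000 := by rw [hB]; exact pow_300
  have h8 : (((28701308 : ℕ) : ℝ)) / (Q : ℕ) * (69315 / 100000) ≤ 198944 / 100000 := by
    unfold Q
    norm_num
  rw [h1, h2, zero_add]
  linarith

end ColRes81
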