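import Pool.Agent.ColRes81.Defs
import Pool.Agent.ColRes81.Sum
import Pool.Agent.ColRes81.K12
import Pool.Agent.ColRes81.K17
import Pool.Agent.ColRes81.K18a
import Pool.Agent.ColRes81.K18b
import Pool.Agent.ColRes81.K19a
import Pool.Agent.ColRes81.K19b
import Pool.Agent.ColRes81.K19c
import Pool.Agent.ColRes81.K19d

/-!
# The Collatz residue is bounded: assembly

`Res x ≤ exp (A x)`, `A x` the sum of `1/(3 c)` over the odd terms `c` before the first `1`.
-/

set_option autoImplicit false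

namespace ColRes81

/-- Even terms among the first `k`. -/
def Ek (k x : ℕ) : ℕ := ((Finset.range k).filter (fun i => C^[i] x % 2 = 0)).card

/-- Odd terms among the first `k`. -/
def Ok (k x : ℕ) : ℕ := ((Finset.range k).filter (fun i => C^[i] x % 2 = 1)).card

/-- Sum of `1/(3 c)` over the odd terms among the first `k`. -/
noncomputable def Ak (k x : ℕ) : ℝ :=
  ∑ i ∈ Finset.range k, if C^[i] x % 2 = 1 then 1 / (3 * ((C^[i] x : ℕ) : ℝ)) else 0

lemma Ek_succ (k x : ℕ) : Ek (k + 1) x = Ek k (C x) + if x % 2 = 0 then 1 else 0 := by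
  unfold Ek
  rw [Finset.card_filter, Finset.card_filter, Finset.sum_range_succ']
  rfl

lemma Ok_succ (k x : ℕ) : Ok (k + 1) x = Ok k (C x) + if x % 2 = 1 then 1 else 0 := by
  unfold Ok
  rw [Finset.card_filter, Finset.card_filter, Finset.sum_range_succ']
  rfl

lemma Ak_succ (k x : ℕ) : Ak (k + 1) x = Ak k (C x) + if x % 2 = 1 then 1 / (3 * (x : ℝ)) else 0 := by
  unfold Ak
  rw [Finset.sum_range_succ']
  rfl

lemma C_even {x : ℕ} (h : x % 2 = 0) : C x = x / 2 := by
  unfold C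
  rw [if_pos h]

lemma C_odd {x : ℕ} (h : x % 2 = 1) : C x = 3 * x + 1 := by
  unfold C
  rw [if_neg (by omega)]

lemma C_pos {x : ℕ} (h : 0 < x) : 0 < C x := by
  rcases Nat.mod_two_eq_zero_or_one x with h1 | h1
  · rw [C_even h1]; omega
  · rw [C_odd h1]; omega

lemma main_ineq (k : ℕ) : ∀ x : ℕ, 0 < x →
    ((C^[k] x : ℕ) : ℝ) * 2 ^ (Ek k x) ≤ x * 3 ^ (Ok k x) * Real.exp (Ak k x) := by
  induction k with
  | zero => intro x _; simp [Ek, Ok, Ak]
  | succ k ih =>
    intro x hx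
    have h := ih (C x) (C_pos hx)
    rw [Function.iterate_succ_apply, Ek_succ, Ok_succ, Ak_succ]
    rcases Nat.mod_two_eq_zero_or_one x with h1 | h1
    · rw [if_pos h1, if_neg (by omega), if_neg (by omega), add_zero, add_zero, pow_succ]
      have h2 : ((C x : ℕ) : ℝ) * 2 = x := by
        rw [C_even h1]
        have : x / 2 * 2 = x := by omega
        exact_mod_cast this
      rw [← h2]
      linarith
    · rw [if_neg (by omega), if_pos h1, if_pos h1, add_zero, pow_succ, Real.exp_add]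
      refine h.trans ?_
      have hx0 : (0 : ℝ) < x := by exact_mod_cast hx
      have h2 : ((C x : ℕ) : ℝ) = 3 * x * (1 / (3 * x) + 1) := by
        rw [C_odd h1]
        push_cast
        field_simp
        ring
      have h3 : 1 / (3 * (x : ℝ)) + 1 ≤ Real.exp (1 / (3 * x)) := Real.add_one_le_exp _
      have h4 : (0 : ℝ) ≤ 3 * x * 3 ^ (Ok k (C x)) * Real.exp (Ak k (C x)) := by positivity
      calc ((C x : ℕ) : ℝ) * 3 ^ (Ok k (C x)) * Real.exp (Ak k (C x)) =
            (3 * x * 3 ^ (Ok k (C x)) * Real.exp (Ak k (C x))) * (1 / (3 * x) + 1) := by rw [h2]; ring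
        _ ≤ (3 * x * 3 ^ (Ok k (C x)) * Real.exp (Ak k (C x))) * Real.exp (1 / (3 * x)) :=
            mul_le_mul_of_nonneg_left h3 h4
        _ = _ := by ring

/-- Sum of `1/(3 c)` over the odd terms before the first `1`. -/
noncomputable def A (x : ℕ) : ℝ := Ak (len x) x

lemma len_spec {x : ℕ} (hx : Convergent x) : C^[len x] x = 1 := Nat.sInf_mem (s := {k | C^[k] x = 1}) hx.2

lemma len_one : len 1 = 0 := by
  have h : len 1 ≤ 0 := Nat.sInf_le (show (0 : ℕ) ∈ {k | C^[k] 1 = 1} from rfl)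
  omega

lemma A_one : A 1 = 0 := by
  unfold A
  rw [len_one]
  simp [Ak]

lemma len_C {x : ℕ} (hx : Convergent x) (h1 : x ≠ 1) : Convergent (C x) ∧ len x = len (C x) + 1 := by
  have h2 := len_spec hx
  have h3 : len x ≠ 0 := by
    intro h0
    rw [h0] at h2
    exact h1 h2
  obtain ⟨k, hk⟩ := Nat.exists_eq_succ_of_ne_zero h3
  rw [hk, Function.iterate_succ_apply] at h2
  have hc : Convergent (C x) := ⟨C_pos hx.1, k, h2⟩
  refine ⟨hc, ?_⟩
  have h4 : len (C x) ≤ k := Nat.sInf_le h2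
  have h5 : C^[len (C x) + 1] x = 1 := by
    rw [Function.iterate_succ_apply]
    exact len_spec hc
  have h6 : len x ≤ len (C x) + 1 := Nat.sInf_le h5
  omega

lemma A_C {x : ℕ} (hx : Convergent x) (h1 : x ≠ 1) :
    A x = A (C x) + if x % 2 = 1 then 1 / (3 * (x : ℝ)) else 0 := by
  unfold A
  rw [(len_C hx h1).2, Ak_succ]

lemma Res_le {x : ℕ} (hx : Convergent x) : Res x ≤ Real.exp (A x) := by
  have h := main_ineq (len x) x hx.1
  rw [len_spec hx, Nat.cast_one, one_mul] at h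
  have hx0 : (0 : ℝ) < x := by exact_mod_cast hx.1
  unfold Res
  rw [div_le_iff₀ (by positivity)]
  calc (2 : ℝ) ^ E x = 2 ^ (Ek (len x) x) := rfl
    _ ≤ x * 3 ^ (Ok (len x) x) * Real.exp (Ak (len x) x) := h
    _ = Real.exp (A x) * (x * 3 ^ O x) := by
      rw [mul_comm]
      rfl

lemma A_pow (j : ℕ) : ∀ c : ℕ, 0 < c → Convergent (2 ^ j * c) →
    Convergent c ∧ A (2 ^ j * c) = A c ∧ len c ≤ len (2 ^ j * c) := by
  induction j with
  | zero => intro c _ h; rw [pow_zero, one_mul] at *; exact ⟨h, rfl, le_rfl⟩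
  | succ j ih =>
    intro c hc h
    have h1 : 2 ^ (j + 1) * c = 2 * (2 ^ j * c) := by ring
    rw [h1] at h ⊢
    have h2 : 0 < 2 ^ j * c := by positivity
    have h3 : C (2 * (2 ^ j * c)) = 2 ^ j * c := by
      rw [C_even (by omega)]
      omega
    obtain ⟨h4, h5⟩ := len_C h (by omega)
    have h6 := A_C h (by omega)
    rw [h3] at h4 h5 h6
    rw [if_neg (by omega), add_zero] at h6
    obtain ⟨h7, h8, h9⟩ := ih c hc h4
    exact ⟨h7, h6.trans h8, by omega⟩

lemma A_Syr {c : ℕ} (hc : Convergent c) (hodd : c % 2 = 1) (h1 : c ≠ 1) :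
    Convergent (Syr c) ∧ A c = A (Syr c) + 1 / (3 * (c : ℝ)) ∧ len (Syr c) < len c := by
  obtain ⟨h2, h3⟩ := len_C hc h1
  have h4 := A_C hc h1
  rw [if_pos hodd] at h4
  rw [C_odd hodd, ← Syr_eq c] at h2 h3 h4
  have hpos : 0 < Syr c := by
    have := Syr_odd c
    omega
  obtain ⟨h5, h6, h7⟩ := A_pow _ _ hpos h2
  rw [h6] at h4
  exact ⟨h5, h4, by omega⟩

lemma A_iter (q : ℕ) : ∀ c : ℕ, Convergent c → c % 2 = 1 → (∀ i < q, Syr^[i] c ≠ 1) →
    Convergent (Syr^[q] c) ∧
      A c = A (Syr^[q] c) + ∑ i ∈ Finset.range q, 1 / (3 * ((Syr^[i] c : ℕ) : ℝ)) := by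
  induction q with
  | zero => intro c hc _ _; simpa using hc
  | succ q ih =>
    intro c hc hodd h
    obtain ⟨h1, h2, -⟩ := A_Syr hc hodd (h 0 (by omega))
    obtain ⟨h3, h4⟩ := ih (Syr c) h1 (Syr_odd c) (fun i hi => by
      have := h (i + 1) (by omega)
      rwa [Function.iterate_succ_apply] at this)
    rw [Function.iterate_succ_apply, Finset.sum_range_succ']
    refine ⟨h3, ?_⟩
    rw [h2, h4]
    simp only [Function.iterate_succ_apply, Function.iterate_zero, id]
    ring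

lemma reach (n : ℕ) : ∀ c : ℕ, Convergent c → c % 2 = 1 → len c ≤ n → ∃ j, Syr^[j] c = 1 := by
  induction n with
  | zero =>
    intro c hc hodd hn
    by_cases h1 : c = 1
    · exact ⟨0, h1⟩
    · have := (len_C hc h1).2
      omega
  | succ n ih =>
    intro c hc hodd hn
    by_cases h1 : c = 1
    · exact ⟨0, h1⟩
    · obtain ⟨h2, -, h3⟩ := A_Syr hc hodd h1
      obtain ⟨j, hj⟩ := ih (Syr c) h2 (Syr_odd c) (by omega)
      exact ⟨j + 1, by rwa [Function.iterate_succ_apply]⟩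

lemma base0 {c : ℕ} (hc : Convergent c) (hodd : c % 2 = 1) (h : c < 2 ^ 12) : A c ≤ 22996 / 100000 := by
  have h1 := accAll_spec _ _ _ _ kacc (c / 2) (by norm_num at h ⊢; omega)
  have h2 : 1 + 2 * (c / 2) = c := by omega
  rw [h2] at h1
  obtain ⟨j, hj1, hj2, hj3⟩ := acc_spec _ _ _ _ hodd (by norm_num at h ⊢; omega) h1
  obtain ⟨-, h4⟩ := A_iter j c hc hodd hj2
  rw [hj1, A_one, zero_add] at h4
  rw [h4]
  push_cast at hj3
  linarith

/-- One dyadic cell of the base. -/
lemma cell_bound {b f : ℕ} {β : ℝ} (hb : 1 ≤ b)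
    (hprev : ∀ c, Convergent c → c % 2 = 1 → c < 2 ^ b → A c ≤ β)
    (hk : ∀ c, c % 2 = 1 → 2 ^ b ≤ c → c < 2 ^ (b + 1) → ∃ j ≤ f, Syr^[j] c < 2 ^ b) {c : ℕ}
    (hc : Convergent c) (hodd : c % 2 = 1) (h : c < 2 ^ (b + 1)) : A c ≤ β + f / (3 * 2 ^ b) := by
  have hpos : (0 : ℝ) < 3 * 2 ^ b := by positivity
  by_cases h0 : c < 2 ^ b
  · have := hprev c hc hodd h0
    have h1 : (0 : ℝ) ≤ f / (3 * 2 ^ b) := by positivity
    linarith
  have hex := hk c hodd (by omega) h
  classical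
  have hex' : ∃ j, Syr^[j] c < 2 ^ b := by
    obtain ⟨j, -, hj⟩ := hex
    exact ⟨j, hj⟩
  obtain ⟨q, hq, hq'⟩ : ∃ q, Syr^[q] c < 2 ^ b ∧ ∀ i < q, 2 ^ b ≤ Syr^[i] c :=
    ⟨Nat.find hex', Nat.find_spec hex', fun i hi => not_lt.1 (Nat.find_min hex' hi)⟩
  have hqf : q ≤ f := by
    obtain ⟨j, hj, hj'⟩ := hex
    by_contra hcon
    have := hq' j (by omega)
    omega
  have h2b : 2 ≤ 2 ^ b := by
    calc 2 = 2 ^ 1 := by norm_num
      _ ≤ 2 ^ b := Nat.pow_le_pow_right (by norm_num) hb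
  obtain ⟨h1, h2⟩ := A_iter q c hc hodd fun i hi h3 => by
    have := hq' i hi
    omega
  have h3 := hprev _ h1 (Syr_iter_odd hodd q) hq
  have h4 : ∑ i ∈ Finset.range q, 1 / (3 * ((Syr^[i] c : ℕ) : ℝ)) ≤ f / (3 * 2 ^ b) := by
    calc _ ≤ ∑ i ∈ Finset.range q, 1 / (3 * (2 : ℝ) ^ b) := by
          apply Finset.sum_le_sum
          intro i hi
          have h5 : ((2 ^ b : ℕ) : ℝ) ≤ ((Syr^[i] c : ℕ) : ℝ) := by
            exact_mod_cast hq' i (Finset.mem_range.1 hi)
          push_cast at h5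
          apply one_div_le_one_div_of_le hpos
          linarith
      _ = q / (3 * 2 ^ b) := by
          rw [Finset.sum_const, Finset.card_range, nsmul_eq_mul, mul_one_div]
      _ ≤ _ := by
          apply div_le_div_of_nonneg_right _ hpos.le
          exact_mod_cast hqf
  rw [h2]
  linarith

/-- From the kernel computation to the hypothesis of `cell_bound`. -/
lemma of_all {b f j y : ℕ} (h : all (2 ^ b) f j y = true) (hy : y % 2 = 1) (hf : (y + 2 * 2 ^ j) * 2 ^ f < 2 ^ 190)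
    {c : ℕ} (hodd : c % 2 = 1) (h1 : y ≤ c) (h2 : c < y + 2 * 2 ^ j) : ∃ j ≤ f, Syr^[j] c < 2 ^ b := by
  have h3 := all_spec _ _ _ _ h ((c - y) / 2) (by omega)
  have h4 : y + 2 * ((c - y) / 2) = c := by omega
  rw [h4] at h3
  refine go_spec _ _ _ hodd ?_ h3
  exact lt_of_le_of_lt (Nat.mul_le_mul_right _ h2.le) hf

lemma base1 {c : ℕ} (hc : Convergent c) (hodd : c % 2 = 1) (h : c < 2 ^ 20) : A c ≤ 23956 / 100000 := by
  have b12 := fun c hc hodd h => base0 (c := c) hc hodd h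
  have b13 := fun c hc hodd h => cell_bound (b := 12) (f := 48) (c := c) (by norm_num) b12
    (fun c h1 h2 h3 => of_all k12 (by norm_num) (by norm_num) h1 (by omega) (by omega)) hc hodd h
  have b14 := fun c hc hodd h => cell_bound (b := 13) (f := 67) (c := c) (by norm_num) b13
    (fun c h1 h2 h3 => of_all k13 (by norm_num) (by norm_num) h1 (by omega) (by omega)) hc hodd h
  have b15 := fun c hc hodd h => cell_bound (b := 14) (f := 57) (c := c) (by norm_num) b14
    (fun c h1 h2 h3 => of_all k14 (by norm_num) (by norm_num) h1 (by omega) (by omega)) hc hodd h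
  have b16 := fun c hc hodd h => cell_bound (b := 15) (f := 96) (c := c) (by norm_num) b15
    (fun c h1 h2 h3 => of_all k15 (by norm_num) (by norm_num) h1 (by omega) (by omega)) hc hodd h
  have b17 := fun c hc hodd h => cell_bound (b := 16) (f := 80) (c := c) (by norm_num) b16
    (fun c h1 h2 h3 => of_all k16 (by norm_num) (by norm_num) h1 (by omega) (by omega)) hc hodd h
  have b18 := fun c hc hodd h => cell_bound (b := 17) (f := 79) (c := c) (by norm_num) b17
    (fun c h1 h2 h3 => of_all k17 (by norm_num) (by norm_num) h1 (by omega) (by omega)) hc hodd h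
  have b19 := fun c hc hodd h => cell_bound (b := 18) (f := 110) (c := c) (by norm_num) b18
    (fun c h1 h2 h3 => by
      by_cases h4 : c < 2 ^ 18 + 2 ^ 17
      · exact of_all k18a (by norm_num) (by norm_num) h1 (by omega) (by omega)
      · exact of_all k18b (by norm_num) (by norm_num) h1 (by omega) (by omega)) hc hodd h
  have b20 := fun c hc hodd h => cell_bound (b := 19) (f := 125) (c := c) (by norm_num) b19
    (fun c h1 h2 h3 => by
      by_cases h4 : c < 2 ^ 19 + 2 ^ 17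
      · exact of_all k19a (by norm_num) (by norm_num) h1 (by omega) (by omega)
      by_cases h5 : c < 2 ^ 19 + 2 * 2 ^ 17
      · exact of_all k19b (by norm_num) (by norm_num) h1 (by omega) (by omega)
      by_cases h6 : c < 2 ^ 19 + 3 * 2 ^ 17
      · exact of_all k19c (by norm_num) (by norm_num) h1 (by omega) (by omega)
      · exact of_all k19d (by norm_num) (by norm_num) h1 (by omega) (by omega)) hc hodd h
  refine (b20 c hc hodd h).trans ?_
  norm_num

lemma A_le {c : ℕ} (hc : Convergent c) (hodd : c % 2 = 1) : A c ≤ 9052 / 10000 := by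
  by_cases h : c < 2 ^ 20
  · have := base1 hc hodd h
    linarith
  classical
  obtain ⟨j, hj⟩ := reach (len c) c hc hodd le_rfl
  have hex : ∃ j, Syr^[j] c < 2 ^ 20 := ⟨j, by rw [hj]; norm_num⟩
  have horb : Orb c (Nat.find hex) (2 ^ 20) :=
    ⟨hodd, fun i hi => not_lt.1 (Nat.find_min hex hi), Nat.find_spec hex⟩
  have h1 := horb.sum_le
  obtain ⟨h2, h3⟩ := A_iter (Nat.find hex) c hc hodd fun i hi h4 => by
    have := horb.ge i hi
    omega
  have h4 := base1 h2 (Syr_iter_odd hodd _) horb.lt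
  have h5 : ∑ i ∈ Finset.range (Nat.find hex), 1 / (3 * ((Syr^[i] c : ℕ) : ℝ)) =
      1 / 3 * ∑ i ∈ Finset.range (Nat.find hex), (1 : ℝ) / (Syr^[i] c : ℕ) := by
    rw [Finset.mul_sum]
    refine Finset.sum_congr rfl fun i _ => ?_
    rw [one_div, one_div, mul_inv]
    ring
  rw [h3, h5]
  linarith

lemma exp_num : Real.exp (9052 / 10000) < 5 / 2 := by
  have h1 := Real.exp_one_lt_d9
  have h2 : Real.exp (9052 / 10000) * Real.exp (948 / 10000) = Real.exp 1 := by
    rw [← Real.exp_add]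
    norm_num
  have h3 := Real.add_one_le_exp (948 / 10000 : ℝ)
  have h4 : 0 < Real.exp (9052 / 10000) := Real.exp_pos _
  nlinarith

theorem Res_lt (x : ℕ) (hx : Convergent x) : Res x < 5 / 2 := by
  refine lt_of_le_of_lt (Res_le hx) (lt_of_le_of_lt (Real.exp_le_exp.2 ?_) exp_num)
  obtain ⟨j, c, hc, rfl⟩ : ∃ j c, c % 2 = 1 ∧ x = 2 ^ j * c := by
    refine ⟨x.factorization 2, ordCompl[2] x, ?_, (Nat.ordProj_mul_ordCompl_eq_self _ _).symm⟩
    have h : ¬ 2 ∣ ordCompl[2] x := Nat.not_dvd_ordCompl Nat.prime_two hx.1.ne'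
    omega
  obtain ⟨h1, h2, -⟩ := A_pow j c (by omega) hx
  rw [h2]
  exact A_le h1 hc

end ColRes81
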