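import Mathlib

/-!
# The Collatz residue is bounded: parity vectors

`T` is the accelerated map, `o k a` the number of odd terms among `a, T a, ..., T^(k-1) a`.
`o k a` depends only on `a` modulo `2^k` and at most `Mr k m` residues modulo `2^k` have `o k a ≥ m`.
-/

set_option autoImplicit false

namespace ColRes81

/-- The accelerated map. -/
def T (n : ℕ) : ℕ := if n % 2 = 0 then n / 2 else (3 * n + 1) / 2

/-- Number of odd terms among `a, T a, ..., T^(k-1) a`. -/
def o : ℕ → ℕ → ℕ
  | 0, _ => 0
  | k + 1, a => a % 2 + o k (T a)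

lemma T_even (n : ℕ) : T (2 * n) = n := by
  unfold T; simp

lemma T_odd (n : ℕ) : T (2 * n + 1) = 3 * n + 2 := by
  unfold T
  rw [if_neg (by omega)]
  omega

lemma T_add (a c : ℕ) : ∃ d, T (a + 2 * c) = T a + c * d := by
  unfold T
  by_cases h : a % 2 = 0
  · refine ⟨1, ?_⟩
    rw [if_pos (by omega), if_pos h]
    omega
  · refine ⟨3, ?_⟩
    rw [if_neg (by omega), if_neg h]
    omega

lemma o_add_pow (k : ℕ) : ∀ a m : ℕ, o k (a + 2 ^ k * m) = o k a := by
  induction k with
  | zero => intro a m; rfl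
  | succ k ih =>
    intro a m
    obtain ⟨d, hd⟩ := T_add a (2 ^ k * m)
    have h1 : a + 2 ^ (k + 1) * m = a + 2 * (2 ^ k * m) := by ring
    rw [h1]
    simp only [o]
    rw [hd, mul_assoc, ih]
    congr 1
    omega

lemma o_mod (k a : ℕ) : o k (a % 2 ^ k) = o k a := by
  conv_rhs => rw [← Nat.mod_add_div a (2 ^ k)]
  exact (o_add_pow k _ _).symm

lemma o_le (k : ℕ) : ∀ a, o k a ≤ k := by
  induction k with
  | zero => intro a; rfl
  | succ k ih =>
    intro a
    simp only [o]
    have := ih (T a)
    omega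

lemma o_add (j k : ℕ) : ∀ a, o (j + k) a = o j a + o k (T^[j] a) := by
  induction j with
  | zero => intro a; simp [o]
  | succ j ih =>
    intro a
    rw [show j + 1 + k = (j + k) + 1 by ring]
    simp only [o, Function.iterate_succ_apply]
    rw [ih]
    ring

lemma o_mono {j k : ℕ} (h : j ≤ k) (a : ℕ) : o j a ≤ o k a := by
  obtain ⟨d, rfl⟩ := Nat.exists_eq_add_of_le h
  rw [o_add]
  omega

/-- Upper bound of the number of residues modulo `2^k` with at least `m` odd terms. -/
def Mr : ℕ → ℕ → ℕ
  | k, 0 => 2 ^ k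
  | 0, _ + 1 => 0
  | k + 1, m + 1 => Mr k (m + 1) + Mr k m

lemma Mr_zero (k : ℕ) : Mr k 0 = 2 ^ k := by
  cases k <;> rfl

lemma cnt_le (k : ℕ) : ∀ m, ((Finset.range (2 ^ k)).filter (fun r => m ≤ o k r)).card ≤ Mr k m := by
  induction k with
  | zero =>
    intro m
    cases m with
    | zero => simp [Mr]
    | succ m => simp [Mr, o]
  | succ k ih =>
    intro m
    cases m with
    | zero => rw [Mr_zero]; exact (Finset.card_filter_le _ _).trans (by simp)
    | succ m =>
      simp only [Mr]
      set A := (Finset.range (2 ^ k)).filter (fun r => m + 1 ≤ o k r) with hA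
      set B := (Finset.range (2 ^ k)).filter (fun r => m ≤ o k r) with hB
      have h2 : 2 ^ (k + 1) = 2 * 2 ^ k := by ring
      have hsplit : (Finset.range (2 ^ (k + 1))).filter (fun r => m + 1 ≤ o (k + 1) r) ⊆
          (A.image fun q => 2 * q) ∪
          ((Finset.range (2 ^ k)).filter (fun q => m ≤ o k (3 * q + 2))).image (fun q => 2 * q + 1) := by
        intro r hr
        rw [Finset.mem_filter, Finset.mem_range] at hr
        rw [Finset.mem_union, Finset.mem_image, Finset.mem_image]
        rcases Nat.even_or_odd' r with ⟨q, rfl | rfl⟩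
        · left
          refine ⟨q, ?_, rfl⟩
          rw [hA, Finset.mem_filter, Finset.mem_range]
          refine ⟨by omega, ?_⟩
          have := hr.2
          simp only [o, T_even] at this
          omega
        · right
          refine ⟨q, ?_, rfl⟩
          rw [Finset.mem_filter, Finset.mem_range]
          refine ⟨by omega, ?_⟩
          have := hr.2
          simp only [o, T_odd] at this
          omega
      have hB' : ((Finset.range (2 ^ k)).filter (fun q => m ≤ o k (3 * q + 2))).card ≤ B.card := by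
        apply Finset.card_le_card_of_injOn (fun q => (3 * q + 2) % 2 ^ k)
        · intro q hq
          rw [Finset.mem_coe, Finset.mem_filter] at hq
          rw [Finset.mem_coe, hB, Finset.mem_filter, Finset.mem_range]
          refine ⟨Nat.mod_lt _ (by positivity), ?_⟩
          rw [o_mod]
          exact hq.2
        · intro q hq q' hq' h
          rw [Finset.mem_coe, Finset.mem_filter, Finset.mem_range] at hq hq'
          have h1 : 3 * q + 2 ≡ 3 * q' + 2 [MOD 2 ^ k] := h
          have h3 : 3 * q ≡ 3 * q' [MOD 2 ^ k] := Nat.ModEq.add_right_cancel' 2 h1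
          have hc : Nat.gcd (2 ^ k) 3 = 1 := by
            apply Nat.Coprime.pow_left
            norm_num
          have h4 : q ≡ q' [MOD 2 ^ k] := Nat.ModEq.cancel_left_of_coprime hc h3
          exact Nat.ModEq.eq_of_lt_of_lt h4 hq.1 hq'.1
      calc _ ≤ _ := Finset.card_le_card hsplit
        _ ≤ (A.image fun q => 2 * q).card +
            (((Finset.range (2 ^ k)).filter (fun q => m ≤ o k (3 * q + 2))).image (fun q => 2 * q + 1)).card :=
          Finset.card_union_le _ _
        _ ≤ A.card + B.card := by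
          refine add_le_add Finset.card_image_le (Finset.card_image_le.trans hB')
        _ ≤ _ := add_le_add (ih _) (ih _)

/-- The slow numbers: at least `m` odd terms among the first `k`, and not divisible by `3`. -/
def slow (k m a : ℕ) : Prop := m ≤ o k a ∧ ¬ 3 ∣ a

instance (k m : ℕ) : DecidablePred (slow k m) := fun a => by unfold slow; infer_instance

lemma slow_periodic (k m : ℕ) : Function.Periodic (slow k m) (3 * 2 ^ k) := by
  intro a
  unfold slow
  rw [show a + 3 * 2 ^ k = a + 2 ^ k * 3 by ring, o_add_pow]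
  congr 1
  rw [eq_iff_iff, not_iff_not]
  omega

lemma slow_count (k m : ℕ) : Nat.count (slow k m) (3 * 2 ^ k) ≤ 2 * Mr k m := by
  rw [Nat.count_eq_card_filter_range]
  have h1 : ((Finset.range (3 * 2 ^ k)).filter (slow k m)).card ≤
      (({1, 2} : Finset ℕ) ×ˢ ((Finset.range (2 ^ k)).filter (fun r => m ≤ o k r))).card := by
    apply Finset.card_le_card_of_injOn (fun a => (a % 3, a % 2 ^ k))
    · intro a ha
      rw [Finset.mem_coe, Finset.mem_filter] at ha
      obtain ⟨ha1, ha2, ha3⟩ := ha
      rw [Finset.mem_coe, Finset.mem_product, Finset.mem_filter, Finset.mem_range]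
      refine ⟨?_, Nat.mod_lt _ (by positivity), ?_⟩
      · simp only [Finset.mem_insert, Finset.mem_singleton]
        omega
      · rw [o_mod]; exact ha2
    · intro a ha b hb h
      rw [Finset.mem_coe, Finset.mem_filter, Finset.mem_range] at ha hb
      rw [Prod.mk.injEq] at h
      have hc : Nat.Coprime 3 (2 ^ k) := by
        apply Nat.Coprime.pow_right
        norm_num
      have h1 : a ≡ b [MOD 3 * 2 ^ k] := (Nat.modEq_and_modEq_iff_modEq_mul hc).1 ⟨h.1, h.2⟩
      exact Nat.ModEq.eq_of_lt_of_lt h1 ha.1 hb.1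
  refine h1.trans ?_
  rw [Finset.card_product]
  exact Nat.mul_le_mul (by decide) (cnt_le k m)

lemma slow_blocks (k m A : ℕ) (t : ℕ) :
    ((Finset.Ico A (A + t * (3 * 2 ^ k))).filter (slow k m)).card ≤ t * (2 * Mr k m) := by
  induction t with
  | zero => simp
  | succ t ih =>
    have h1 : Finset.Ico A (A + (t + 1) * (3 * 2 ^ k)) =
        Finset.Ico A (A + t * (3 * 2 ^ k)) ∪
          Finset.Ico (A + t * (3 * 2 ^ k)) (A + t * (3 * 2 ^ k) + 3 * 2 ^ k) := by
      rw [Finset.Ico_union_Ico_eq_Ico (by omega) (by omega)]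
      congr 1
      ring
    rw [h1, Finset.filter_union]
    refine (Finset.card_union_le _ _).trans ?_
    have h2 : ((Finset.Ico (A + t * (3 * 2 ^ k)) (A + t * (3 * 2 ^ k) + 3 * 2 ^ k)).filter (slow k m)).card ≤
        2 * Mr k m := by
      rw [Nat.filter_Ico_card_eq_of_periodic _ _ _ (slow_periodic k m)]
      exact slow_count k m
    calc _ ≤ t * (2 * Mr k m) + 2 * Mr k m := add_le_add ih h2
      _ = _ := by ring

/-- Number of slow numbers in an interval. -/
lemma slow_interval (k m A B : ℕ) :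
    ((Finset.Ico A B).filter (slow k m)).card ≤ ((B - A) / (3 * 2 ^ k) + 1) * (2 * Mr k m) := by
  refine le_trans (Finset.card_le_card ?_) (slow_blocks k m A ((B - A) / (3 * 2 ^ k) + 1))
  apply Finset.filter_subset_filter
  apply Finset.Ico_subset_Ico le_rfl
  have h1 := Nat.div_add_mod (B - A) (3 * 2 ^ k)
  have h2 := Nat.mod_lt (B - A) (show 3 * 2 ^ k > 0 by positivity)
  have h3 : ((B - A) / (3 * 2 ^ k) + 1) * (3 * 2 ^ k) = 3 * 2 ^ k * ((B - A) / (3 * 2 ^ k)) + 3 * 2 ^ k := by ring
  omega

/-- Growth of the accelerated map. -/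
lemma T_growth (k : ℕ) : ∀ a : ℕ,
    ((T^[k] a : ℕ) : ℝ) + 1 ≤ (3 : ℝ) ^ (o k a) / 2 ^ k * a + (3 / 2) ^ (o k a) := by
  induction k with
  | zero => intro a; simp [o]
  | succ k ih =>
    intro a
    rw [Function.iterate_succ_apply]
    have h := ih (T a)
    rcases Nat.even_or_odd' a with ⟨q, rfl | rfl⟩
    · rw [T_even] at h ⊢
      have h1 : o (k + 1) (2 * q) = o k q := by simp [o, T_even]
      rw [h1]
      refine h.trans (le_of_eq ?_)
      push_cast
      rw [pow_succ]
      field_simp
    · rw [T_odd] at h ⊢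
      have h1 : o (k + 1) (2 * q + 1) = o k (3 * q + 2) + 1 := by
        simp only [o, T_odd]; omega
      rw [h1]
      refine h.trans ?_
      have h2 : (3 : ℝ) ^ (o k (3 * q + 2)) / 2 ^ (k + 1) ≤ 1 / 2 * (3 / 2) ^ (o k (3 * q + 2)) := by
        rw [div_pow, pow_succ, div_le_iff₀ (by positivity)]
        have h3 : (2 : ℝ) ^ (o k (3 * q + 2)) ≤ 2 ^ k := pow_le_pow_right₀ (by norm_num) (o_le k _)
        have h4 : (0 : ℝ) < 2 ^ (o k (3 * q + 2)) := by positivity
        have h5 : (0 : ℝ) < 3 ^ (o k (3 * q + 2)) := by positivity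
        calc (3 : ℝ) ^ (o k (3 * q + 2)) = 3 ^ (o k (3 * q + 2)) / 2 ^ (o k (3 * q + 2)) * 2 ^ (o k (3 * q + 2)) := by
              field_simp
          _ ≤ 3 ^ (o k (3 * q + 2)) / 2 ^ (o k (3 * q + 2)) * 2 ^ k :=
              mul_le_mul_of_nonneg_left h3 (by positivity)
          _ = 1 / 2 * (3 ^ (o k (3 * q + 2)) / 2 ^ (o k (3 * q + 2))) * (2 ^ k * 2) := by ring
      have h6 : (3 : ℝ) ^ (o k (3 * q + 2)) / 2 ^ k * ((3 * q + 2 : ℕ) : ℝ) =
          (3 : ℝ) ^ (o k (3 * q + 2) + 1) / 2 ^ (k + 1) * ((2 * q + 1 : ℕ) : ℝ) +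
            (3 : ℝ) ^ (o k (3 * q + 2)) / 2 ^ (k + 1) := by
        push_cast
        rw [pow_succ, pow_succ]
        field_simp
        ring
      rw [h6, pow_succ (3 / 2 : ℝ)]
      linarith

end ColRes81
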