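import Pool.Agent.ColRes81.Orbit

/-!
# The Collatz residue is bounded: certified bounds on dyadic cells

`Mr` in closed form; `cell_step` turns a bound `Q g(N) ≤ D N` below `2^b` into a bound on `[2^b, 2^(b+1))`.
-/

set_option autoImplicit false

namespace ColRes81

lemma Mr_eq_sum (k : ℕ) : ∀ m, Mr k m = ∑ j ∈ Finset.range (k + 1), if m ≤ j then k.choose j else 0 := by
  induction k with
  | zero =>
    intro m
    cases m with
    | zero => simp [Mr]
    | succ m => simp [Mr]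
  | succ k ih =>
    intro m
    cases m with
    | zero =>
      rw [Mr_zero]
      simp only [Nat.zero_le, if_true]
      exact (Nat.sum_range_choose (k + 1)).symm
    | succ m =>
      simp only [Mr]
      rw [ih, ih, Finset.sum_range_succ' _ (k + 1), if_neg (by omega), add_zero]
      have h1 : ∀ i, (if m + 1 ≤ i + 1 then (k + 1).choose (i + 1) else 0) =
          (if m ≤ i then k.choose i else 0) + (if m + 1 ≤ i + 1 then k.choose (i + 1) else 0) := by
        intro i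
        by_cases hi : m ≤ i
        · rw [if_pos (by omega), if_pos hi, if_pos (by omega), Nat.choose_succ_succ]
        · rw [if_neg (by omega), if_neg hi, if_neg (by omega)]
      rw [Finset.sum_congr rfl fun i _ => h1 i, Finset.sum_add_distrib, add_comm]
      congr 1
      have h2 := Finset.sum_range_succ' (fun j => if m + 1 ≤ j then k.choose j else 0) (k + 1)
      rw [if_neg (by omega), add_zero] at h2
      rw [← h2, Finset.sum_range_succ _ (k + 1), Nat.choose_succ_self]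
      simp

lemma Mr_le_pow (k m : ℕ) : Mr k m ≤ 2 ^ k := by
  rw [Mr_eq_sum, ← Nat.sum_range_choose k]
  apply Finset.sum_le_sum
  intro j _
  split_ifs
  · exact le_rfl
  · exact Nat.zero_le _

/-- Closed form of `Mr`. -/
def Kr (k m : ℕ) : ℕ := ((1 + 2 ^ (k + 2)) ^ k / (2 ^ (k + 2)) ^ m) % (2 ^ (k + 2) - 1)

lemma Mr_eq_Kr (k m : ℕ) : Mr k m = Kr k m := by
  unfold Kr
  obtain ⟨X, hX⟩ : ∃ X, X = 2 ^ (k + 2) := ⟨_, rfl⟩
  rw [← hX]
  have hX2 : X = 4 * 2 ^ k := by rw [hX, pow_add]; ring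
  have hp : 1 ≤ 2 ^ k := Nat.one_le_two_pow
  have hc : ∀ j, k.choose j < X := by
    intro j
    have := Nat.choose_le_two_pow k j
    omega
  have hlow : ∀ m : ℕ, ∑ j ∈ (Finset.range (k + 1)).filter (fun j => j < m), k.choose j * X ^ j < X ^ m := by
    intro m
    have h1 : ∀ m : ℕ, ∑ j ∈ Finset.range m, k.choose j * X ^ j < X ^ m := by
      intro m
      induction m with
      | zero => simp
      | succ m ih =>
        rw [Finset.sum_range_succ, pow_succ]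
        have h2 := hc m
        calc _ < X ^ m + k.choose m * X ^ m := Nat.add_lt_add_right ih _
          _ = (k.choose m + 1) * X ^ m := by ring
          _ ≤ X * X ^ m := Nat.mul_le_mul_right _ h2
          _ = _ := by ring
    refine lt_of_le_of_lt ?_ (h1 m)
    apply Finset.sum_le_sum_of_subset
    intro j hj
    rw [Finset.mem_filter] at hj
    exact Finset.mem_range.2 hj.2
  have hexp : (1 + X) ^ k = ∑ j ∈ Finset.range (k + 1), k.choose j * X ^ j := by
    rw [add_comm, add_pow]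
    refine Finset.sum_congr rfl fun j _ => ?_
    rw [one_pow, mul_one, Nat.cast_id]
    ring
  have hX0 : 0 < X := by omega
  have hsplit : (1 + X) ^ k = ∑ j ∈ (Finset.range (k + 1)).filter (fun j => j < m), k.choose j * X ^ j +
      X ^ m * ∑ j ∈ (Finset.range (k + 1)).filter (fun j => ¬ j < m), k.choose j * X ^ (j - m) := by
    rw [hexp, ← Finset.sum_filter_add_sum_filter_not _ (fun j => j < m), Finset.mul_sum]
    congr 1
    refine Finset.sum_congr rfl fun j hj => ?_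
    rw [Finset.mem_filter] at hj
    have h1 : X ^ j = X ^ m * X ^ (j - m) := by
      rw [← pow_add]; congr 1; omega
    rw [h1]; ring
  rw [hsplit, Nat.add_mul_div_left _ _ (pow_pos hX0 m), Nat.div_eq_of_lt (hlow m), zero_add]
  have hmod : ∑ j ∈ (Finset.range (k + 1)).filter (fun j => ¬ j < m), k.choose j * X ^ (j - m) ≡
      Mr k m [MOD (X - 1)] := by
    have h1 : Mr k m = ∑ j ∈ (Finset.range (k + 1)).filter (fun j => ¬ j < m), k.choose j * 1 := by
      rw [Mr_eq_sum, Finset.sum_filter]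
      refine Finset.sum_congr rfl fun j _ => ?_
      by_cases h : m ≤ j
      · rw [if_pos h, if_pos (by omega), mul_one]
      · rw [if_neg h, if_neg (by omega)]
    rw [h1]
    have h2 : ∀ s : Finset ℕ, ∑ j ∈ s, k.choose j * X ^ (j - m) ≡ ∑ j ∈ s, k.choose j * 1 [MOD (X - 1)] := by
      intro s
      classical
      induction s using Finset.induction_on with
      | empty => rfl
      | insert a s ha ih =>
        rw [Finset.sum_insert ha, Finset.sum_insert ha]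
        apply Nat.ModEq.add _ ih
        apply Nat.ModEq.mul_left
        have h3 : X ≡ 1 [MOD (X - 1)] := by
          have h4 : X = (X - 1) + 1 := by omega
          conv_lhs => rw [h4]
          exact Nat.ModEq.symm (by simp [Nat.ModEq])
        have h5 := h3.pow (a - m)
        rwa [one_pow] at h5
    exact h2 _
  rw [hmod, Nat.mod_eq_of_lt]
  have := Mr_le_pow k m
  omega

/-- The denominator of the certified bounds. -/
abbrev Q : ℕ := 10000000

theorem Orb.cell_step {c q N₀ : ℕ} (h : Orb c q N₀) {D b n k d e : ℕ}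
    (hD : ∀ N, 2 ^ b ≤ 4 * N → N < 2 ^ b → Q * g c q N ≤ D * N)
    (h1 : 2 ^ k ≤ 4 * 3 ^ n)
    (h2 : 3 ^ n * 2 ^ (b + 1) + e * 2 ^ k ≤ 2 ^ (b + k))
    (h3 : 3 ^ n ≤ e * 2 ^ n)
    (h4 : 3 * 2 ^ k * (Q * (n + 1 + 2 * Mr k (n + 1)) + D * e) +
      2 ^ b * (Q * Mr k (n + 1) + 3 ^ (n + 1) * D) ≤ 3 * 2 ^ k * d * 2 ^ b)
    {N : ℕ} (hN : 2 ^ b ≤ N) (hN' : N < 2 ^ (b + 1)) : Q * g c q N ≤ d * N := by
  obtain ⟨M, hM⟩ : ∃ M, M = Mr k (n + 1) := ⟨_, rfl⟩
  rw [← hM] at h4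
  obtain ⟨F, hF⟩ : ∃ F, F = 3 ^ n * N / 2 ^ k := ⟨_, rfl⟩
  have hF1 : 2 ^ k * F ≤ 3 ^ n * N := by rw [hF]; exact Nat.mul_div_le _ _
  have hF2 : 3 ^ n * N < 2 ^ k * (F + 1) := by
    rw [hF]; exact Nat.lt_mul_div_succ _ (by positivity)
  have hk0 : 0 < 2 ^ k := by positivity
  have he : 1 ≤ e := by
    rcases Nat.eq_zero_or_pos e with h0 | h0
    · rw [h0, zero_mul] at h3
      have : 0 < 3 ^ n := by positivity
      omega
    · exact h0
  -- the new cutoff
  have hlow : 2 ^ b ≤ 4 * (F + e) := by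
    have h5 : 2 ^ k * 2 ^ b ≤ 2 ^ k * (4 * (F + e)) := by
      calc 2 ^ k * 2 ^ b ≤ (4 * 3 ^ n) * N := Nat.mul_le_mul h1 hN
        _ = 4 * (3 ^ n * N) := by ring
        _ ≤ 4 * (2 ^ k * (F + 1)) := Nat.mul_le_mul_left _ hF2.le
        _ ≤ 4 * (2 ^ k * (F + e)) := by
          apply Nat.mul_le_mul_left
          apply Nat.mul_le_mul_left
          omega
        _ = _ := by ring
    exact Nat.le_of_mul_le_mul_left h5 hk0
  have hhigh : F + e < 2 ^ b := by
    have h5 : 2 ^ k * (F + e) < 2 ^ k * 2 ^ b := by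
      calc 2 ^ k * (F + e) = 2 ^ k * F + e * 2 ^ k := by ring
        _ ≤ 3 ^ n * N + e * 2 ^ k := Nat.add_le_add_right hF1 _
        _ < 3 ^ n * 2 ^ (b + 1) + e * 2 ^ k := by
          apply Nat.add_lt_add_right
          exact Nat.mul_lt_mul_of_pos_left hN' (by positivity)
        _ ≤ 2 ^ (b + k) := h2
        _ = _ := by rw [pow_add]; ring
    exact Nat.lt_of_mul_lt_mul_left h5
  have hcut : (3 : ℝ) ^ n / 2 ^ k * N + (3 / 2) ^ n ≤ ((F + e : ℕ) : ℝ) + 1 := by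
    have h5 : ((3 ^ n * N : ℕ) : ℝ) ≤ ((2 ^ k * (F + 1) : ℕ) : ℝ) := by exact_mod_cast hF2.le
    have h6 : ((3 ^ n : ℕ) : ℝ) ≤ ((e * 2 ^ n : ℕ) : ℝ) := by exact_mod_cast h3
    push_cast at h5 h6 ⊢
    have h7 : (3 : ℝ) ^ n / 2 ^ k * N ≤ F + 1 := by
      rw [div_mul_eq_mul_div, div_le_iff₀ (by positivity)]
      linarith
    have h8 : (3 / 2 : ℝ) ^ n ≤ e := by
      rw [div_pow, div_le_iff₀ (by positivity)]
      exact h6
    linarith
  have hstep := h.g_step n k N (F + e) hcut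
  have hslow := slow_interval k (n + 1) ((N + 1) / 2) N
  rw [← hM] at hslow
  have hsl : 3 * 2 ^ k * ((Finset.Ico ((N + 1) / 2) N).filter (slow k (n + 1))).card ≤
      N * M + 3 * 2 ^ k * (2 * M) := by
    calc _ ≤ 3 * 2 ^ k * (((N - (N + 1) / 2) / (3 * 2 ^ k) + 1) * (2 * M)) := Nat.mul_le_mul_left _ hslow
      _ = (3 * 2 ^ k * ((N - (N + 1) / 2) / (3 * 2 ^ k))) * (2 * M) + 3 * 2 ^ k * (2 * M) := by ring
      _ ≤ (N - (N + 1) / 2) * (2 * M) + 3 * 2 ^ k * (2 * M) :=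
        Nat.add_le_add_right (Nat.mul_le_mul_right _ (Nat.mul_div_le _ _)) _
      _ = (2 * (N - (N + 1) / 2)) * M + 3 * 2 ^ k * (2 * M) := by ring
      _ ≤ _ := Nat.add_le_add_right (Nat.mul_le_mul_right _ (by omega)) _
  have hDN := hD (F + e) hlow hhigh
  have hmain : 3 * 2 ^ k * (Q * g c q N) ≤ 3 * 2 ^ k * (Q * (n + 1 + 2 * M) + D * e) +
      N * (Q * M + 3 ^ (n + 1) * D) := by
    calc 3 * 2 ^ k * (Q * g c q N) ≤ 3 * 2 ^ k * (Q * ((n + 1) +
          ((Finset.Ico ((N + 1) / 2) N).filter (slow k (n + 1))).card + g c q (F + e))) :=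
          Nat.mul_le_mul_left _ (Nat.mul_le_mul_left _ hstep)
      _ = 3 * 2 ^ k * (Q * (n + 1)) + Q * (3 * 2 ^ k *
          ((Finset.Ico ((N + 1) / 2) N).filter (slow k (n + 1))).card) +
          3 * 2 ^ k * (Q * g c q (F + e)) := by ring
      _ ≤ 3 * 2 ^ k * (Q * (n + 1)) + Q * (N * M + 3 * 2 ^ k * (2 * M)) +
          3 * 2 ^ k * (D * (F + e)) :=
          Nat.add_le_add (Nat.add_le_add_left (Nat.mul_le_mul_left _ hsl) _) (Nat.mul_le_mul_left _ hDN)
      _ = 3 * 2 ^ k * (Q * (n + 1 + 2 * M) + D * e) + N * (Q * M) + 3 * D * (2 ^ k * F) := by ring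
      _ ≤ 3 * 2 ^ k * (Q * (n + 1 + 2 * M) + D * e) + N * (Q * M) + 3 * D * (3 ^ n * N) :=
          Nat.add_le_add_left (Nat.mul_le_mul_left _ hF1) _
      _ = _ := by rw [pow_succ]; ring
  have hfin : (3 * 2 ^ k * 2 ^ b) * (Q * g c q N) ≤ (3 * 2 ^ k * 2 ^ b) * (d * N) := by
    calc (3 * 2 ^ k * 2 ^ b) * (Q * g c q N) = 2 ^ b * (3 * 2 ^ k * (Q * g c q N)) := by ring
      _ ≤ 2 ^ b * (3 * 2 ^ k * (Q * (n + 1 + 2 * M) + D * e) + N * (Q * M + 3 ^ (n + 1) * D)) :=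
        Nat.mul_le_mul_left _ hmain
      _ = 2 ^ b * (3 * 2 ^ k * (Q * (n + 1 + 2 * M) + D * e)) + N * (2 ^ b * (Q * M + 3 ^ (n + 1) * D)) := by
        ring
      _ ≤ N * (3 * 2 ^ k * (Q * (n + 1 + 2 * M) + D * e)) + N * (2 ^ b * (Q * M + 3 ^ (n + 1) * D)) :=
        Nat.add_le_add_right (Nat.mul_le_mul_right _ hN) _
      _ = N * (3 * 2 ^ k * (Q * (n + 1 + 2 * M) + D * e) + 2 ^ b * (Q * M + 3 ^ (n + 1) * D)) := by ring
      _ ≤ N * (3 * 2 ^ k * d * 2 ^ b) := Nat.mul_le_mul_left _ h4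
      _ = _ := by ring
  exact Nat.le_of_mul_le_mul_left hfin (by positivity)

/-- One line of the certificate. -/
def ok (b n k d D : ℕ) : Bool :=
  Nat.ble (2 ^ k) (4 * 3 ^ n) &&
  (Nat.ble (3 ^ n * 2 ^ (b + 1) + (3 ^ n / 2 ^ n + 1) * 2 ^ k) (2 ^ (b + k)) &&
  Nat.ble (3 * 2 ^ k * (Q * (n + 1 + 2 * Kr k (n + 1)) + D * (3 ^ n / 2 ^ n + 1)) +
      2 ^ b * (Q * Kr k (n + 1) + 3 ^ (n + 1) * D)) (3 * 2 ^ k * d * 2 ^ b))

/-- The certificate. -/
def chk : List (ℕ × ℕ × ℕ) → ℕ → ℕ → ℕ → Bool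
  | [], _, _, _ => true
  | x :: l, b, D1, D2 => ok b x.1 x.2.1 x.2.2 (D1 + (D2 - D1)) && chk l (b + 1) x.2.2 D1

/-- The bounds of the cells. -/
def cellsOK (G : ℕ → ℕ) : List (ℕ × ℕ × ℕ) → ℕ → Prop
  | [], _ => True
  | x :: l, b => (∀ N, 2 ^ b ≤ N → N < 2 ^ (b + 1) → Q * G N ≤ x.2.2 * N) ∧ cellsOK G l (b + 1)

theorem Orb.cells {c q N₀ : ℕ} (h : Orb c q N₀) (l : List (ℕ × ℕ × ℕ)) : ∀ b D1 D2 : ℕ,
    chk l b D1 D2 = true →
    (∀ N, 2 ^ b ≤ 2 * N → N < 2 ^ b → Q * g c q N ≤ D1 * N) →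
    (∀ N, 2 ^ b ≤ 4 * N → 2 * N < 2 ^ b → Q * g c q N ≤ D2 * N) → cellsOK (g c q) l b := by
  induction l with
  | nil => intro b D1 D2 _ _ _; trivial
  | cons x l ih =>
    intro b D1 D2 hc hd1 hd2
    rw [chk, Bool.and_eq_true, ok, Bool.and_eq_true, Bool.and_eq_true, Nat.ble_eq, Nat.ble_eq, Nat.ble_eq] at hc
    obtain ⟨⟨h1, h2, h4⟩, hc'⟩ := hc
    rw [← Mr_eq_Kr] at h4
    have hcell : ∀ N, 2 ^ b ≤ N → N < 2 ^ (b + 1) → Q * g c q N ≤ x.2.2 * N := by
      intro N hN hN'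
      refine h.cell_step (D := D1 + (D2 - D1)) (e := 3 ^ x.1 / 2 ^ x.1 + 1) ?_ h1 h2 ?_ h4 hN hN'
      · intro N hN1 hN2
        by_cases h5 : 2 * N < 2 ^ b
        · exact (hd2 N hN1 h5).trans (Nat.mul_le_mul_right _ (by omega))
        · exact (hd1 N (by omega) hN2).trans (Nat.mul_le_mul_right _ (by omega))
      · have := Nat.lt_mul_div_succ (3 ^ x.1) (show 0 < 2 ^ x.1 by positivity)
        rw [mul_comm] at this
        exact this.le
    refine ⟨hcell, ih (b + 1) x.2.2 D1 hc' ?_ ?_⟩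
    · intro N hN1 hN2
      rw [pow_succ] at hN1
      exact hcell N (by omega) hN2
    · intro N hN1 hN2
      rw [pow_succ] at hN1 hN2
      exact hd1 N (by omega) (by omega)

end ColRes81
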