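import Mathlib

/-!
# The Collatz residue (definitions of MP_b192cd_nt)
-/

set_option autoImplicit false

namespace ColRes81

/-- The Collatz map. -/
def C (n : ℕ) : ℕ := if n % 2 = 0 then n / 2 else 3 * n + 1

/-- A positive integer is convergent if some iterate of it is `1`. -/
def Convergent (x : ℕ) : Prop := 0 < x ∧ ∃ k, C^[k] x = 1

/-- `n(x)`: the least `k` with `C^k(x) = 1`. -/
noncomputable def len (x : ℕ) : ℕ := sInf {k | C^[k] x = 1}

/-- `E(x)`: number of even terms among the terms before the first occurrence of `1`. -/
noncomputable def E (x : ℕ) : ℕ := ((Finset.range (len x)).filter (fun i => C^[i] x % 2 = 0)).card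

/-- `O(x)`: number of odd terms among the terms before the first occurrence of `1`. -/
noncomputable def O (x : ℕ) : ℕ := ((Finset.range (len x)).filter (fun i => C^[i] x % 2 = 1)).card

/-- The residue of `x`. -/
noncomputable def Res (x : ℕ) : ℝ := 2 ^ E x / (x * 3 ^ O x)

end ColRes81
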