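import Pool.Agent.ColRes81.Orbit

/-!
# The Collatz residue is bounded: functions evaluated by the kernel

`go B f c`: the Syracuse trajectory of `c` drops below `B` within `f` steps.
`all B f j y`: this holds for `y, y + 2, ..., y + 2 (2^j - 1)`.
`acc D f c s`: the trajectory of `c` reaches `1` within `f` steps and the sum of `10^9 / (3 c) + 1` over its terms before
`1`, plus `s`, is at most `D`.
-/

set_option autoImplicit false

namespace ColRes81

/-- The power of two used to extract the odd part. -/
abbrev PW : ℕ := 1606938044258990275541962092341162602522202993782792835301376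

/-- Next odd term, as evaluated by the kernel. -/
def nxt (c : ℕ) : ℕ := Nat.div (Nat.succ (Nat.mul 3 c)) (Nat.gcd (Nat.succ (Nat.mul 3 c)) PW)

def go (B : ℕ) (f : ℕ) : ℕ → Bool :=
  Nat.rec (motive := fun _ => ℕ → Bool) (fun c => Nat.ble (Nat.succ c) B)
    (fun _ ih c =>
      Bool.rec (motive := fun _ => Bool)
        (Nat.rec (motive := fun _ => Bool) false
          (fun c' _ => ih (Nat.div (Nat.succ c') (Nat.gcd (Nat.succ c') PW))) (Nat.succ (Nat.mul 3 c)))
        true
        (Nat.ble (Nat.succ c) B)) f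

def all (B f j : ℕ) : ℕ → Bool :=
  Nat.rec (motive := fun _ => ℕ → Bool) (fun y => go B f y)
    (fun j ih y => Bool.rec (motive := fun _ => Bool) false (ih (Nat.add y (Nat.pow 2 (Nat.succ j)))) (ih y)) j

def acc (D f : ℕ) : ℕ → ℕ → Bool :=
  Nat.rec (motive := fun _ => ℕ → ℕ → Bool) (fun _ _ => false)
    (fun _ ih c s =>
      Bool.rec (motive := fun _ => Bool)
        (Nat.rec (motive := fun _ => Bool) false
          (fun c' _ => Nat.rec (motive := fun _ => Bool) false
            (fun s' _ => ih (Nat.div (Nat.succ c') (Nat.gcd (Nat.succ c') PW)) (Nat.succ s'))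
            (Nat.succ (Nat.add s (Nat.div 1000000000 (Nat.mul 3 c)))))
          (Nat.succ (Nat.mul 3 c)))
        (Nat.ble s D)
        (Nat.ble c 1)) f

def accAll (D f j : ℕ) : ℕ → Bool :=
  Nat.rec (motive := fun _ => ℕ → Bool) (fun y => acc D f y 0)
    (fun j ih y => Bool.rec (motive := fun _ => Bool) false (ih (Nat.add y (Nat.pow 2 (Nat.succ j)))) (ih y)) j

lemma Syr_le {c : ℕ} (hc : c % 2 = 1) : Syr c ≤ 2 * c := by
  obtain ⟨v, hv⟩ : ∃ v, (3 * c + 1).factorization 2 = v := ⟨_, rfl⟩
  have h1 := Syr_eq c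
  rw [hv] at h1
  cases v with
  | zero =>
    rw [pow_zero, one_mul] at h1
    have := Syr_odd c
    omega
  | succ w =>
    have h2 : 2 * Syr c ≤ 2 ^ (w + 1) * Syr c := by
      apply Nat.mul_le_mul_right
      rw [pow_succ]
      have : 1 ≤ 2 ^ w := Nat.one_le_two_pow
      omega
    omega

lemma nxt_eq {c : ℕ} (hc : 3 * c + 1 < 2 ^ 200) : nxt c = Syr c := by
  unfold nxt
  have hPW : PW = 2 ^ 200 := by norm_num
  have e1 : Nat.succ (Nat.mul 3 c) = 3 * c + 1 := rfl
  rw [hPW, e1]
  obtain ⟨v, hv⟩ : ∃ v, (3 * c + 1).factorization 2 = v := ⟨_, rfl⟩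
  have h1 := Syr_eq c
  rw [hv] at h1
  have hm : 1 ≤ Syr c := by
    have := Syr_odd c
    omega
  have h2 : 2 ^ v ≤ 3 * c + 1 := by
    rw [← h1]
    exact Nat.le_mul_of_pos_right _ hm
  have hv200 : v ≤ 200 := by
    by_contra h
    have : 2 ^ 200 ≤ 2 ^ v := Nat.pow_le_pow_right (by norm_num) (by omega)
    omega
  have h3 : Nat.gcd (3 * c + 1) (2 ^ 200) = 2 ^ v := by
    obtain ⟨u, hu⟩ := Nat.exists_eq_add_of_le hv200
    rw [← h1, hu, pow_add, Nat.gcd_mul_left]
    have h4 : Nat.Coprime (Syr c) (2 ^ u) := by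
      apply Nat.Coprime.pow_right
      rw [Nat.coprime_two_right]
      exact Nat.odd_iff.2 (Syr_odd c)
    rw [h4, mul_one]
  have e2 : Nat.div (3 * c + 1) (Nat.gcd (3 * c + 1) (2 ^ 200)) = (3 * c + 1) / (Nat.gcd (3 * c + 1) (2 ^ 200)) := rfl
  rw [e2, h3]
  conv_lhs => rw [← h1]
  exact Nat.mul_div_cancel_left _ (by positivity)

lemma bound_aux {c f : ℕ} (hc : c % 2 = 1) (h : c * 2 ^ (f + 1) < 2 ^ 190) :
    nxt c = Syr c ∧ Syr c * 2 ^ f < 2 ^ 190 := by
  have h1 : 1 ≤ 2 ^ f := Nat.one_le_two_pow
  have h2 : c * 2 ≤ c * 2 ^ (f + 1) := Nat.mul_le_mul_left _ (by rw [pow_succ]; omega)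
  refine ⟨nxt_eq ?_, ?_⟩
  · norm_num at h h2 ⊢
    omega
  · refine lt_of_le_of_lt ?_ h
    calc Syr c * 2 ^ f ≤ (2 * c) * 2 ^ f := Nat.mul_le_mul_right _ (Syr_le hc)
      _ = c * 2 ^ (f + 1) := by rw [pow_succ]; ring

lemma go_succ (B f c : ℕ) : go B (f + 1) c =
    Bool.rec (motive := fun _ => Bool) (go B f (nxt c)) true (Nat.ble (Nat.succ c) B) := rfl

lemma go_spec (B : ℕ) : ∀ f c : ℕ, c % 2 = 1 → c * 2 ^ f < 2 ^ 190 → go B f c = true →
    ∃ j ≤ f, Syr^[j] c < B := by
  intro f
  induction f with
  | zero =>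
    intro c _ _ h
    have h1 : Nat.ble (Nat.succ c) B = true := h
    rw [Nat.ble_eq] at h1
    exact ⟨0, le_rfl, h1⟩
  | succ f ih =>
    intro c hc hb h
    rw [go_succ] at h
    cases hble : Nat.ble (Nat.succ c) B with
    | true =>
      rw [Nat.ble_eq] at hble
      exact ⟨0, Nat.zero_le _, hble⟩
    | false =>
      rw [hble] at h
      obtain ⟨h1, h2⟩ := bound_aux hc hb
      have h3 : go B f (nxt c) = true := h
      rw [h1] at h3
      obtain ⟨j, hj, hj'⟩ := ih (Syr c) (Syr_odd c) h2 h3
      exact ⟨j + 1, by omega, by rwa [Function.iterate_succ_apply]⟩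

lemma all_succ (B f j y : ℕ) : all B f (j + 1) y =
    Bool.rec (motive := fun _ => Bool) false (all B f j (y + 2 ^ (j + 1))) (all B f j y) := rfl

lemma all_spec (B f : ℕ) : ∀ j y : ℕ, all B f j y = true → ∀ i < 2 ^ j, go B f (y + 2 * i) = true := by
  intro j
  induction j with
  | zero =>
    intro y h i hi
    have : i = 0 := by
      rw [pow_zero] at hi
      omega
    rw [this]
    exact h
  | succ j ih =>
    intro y h i hi
    rw [all_succ] at h
    cases h1 : all B f j y with
    | false =>
      rw [h1] at h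
      exact absurd h (by simp)
    | true =>
      rw [h1] at h
      have h2 : all B f j (y + 2 ^ (j + 1)) = true := h
      rw [pow_succ] at hi
      by_cases h3 : i < 2 ^ j
      · exact ih y h1 i h3
      · have h4 := ih _ h2 (i - 2 ^ j) (by omega)
        have h5 : y + 2 ^ (j + 1) + 2 * (i - 2 ^ j) = y + 2 * i := by
          rw [pow_succ]
          omega
        rwa [h5] at h4

lemma acc_succ (D f c s : ℕ) : acc D (f + 1) c s =
    Bool.rec (motive := fun _ => Bool) (acc D f (nxt c) (s + 1000000000 / (3 * c) + 1)) (Nat.ble s D)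
      (Nat.ble c 1) := rfl

lemma acc_spec (D : ℕ) : ∀ f c s : ℕ, c % 2 = 1 → c * 2 ^ f < 2 ^ 190 → acc D f c s = true →
    ∃ j, Syr^[j] c = 1 ∧ (∀ i < j, Syr^[i] c ≠ 1) ∧
      (s : ℝ) + 1000000000 * ∑ i ∈ Finset.range j, 1 / (3 * ((Syr^[i] c : ℕ) : ℝ)) ≤ D := by
  intro f
  induction f with
  | zero =>
    intro c s _ _ h
    exact absurd h (by simp [acc])
  | succ f ih =>
    intro c s hc hb h
    rw [acc_succ] at h
    cases hble : Nat.ble c 1 with
    | true =>
      rw [hble] at h
      have h1 : Nat.ble s D = true := h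
      rw [Nat.ble_eq] at h1 hble
      refine ⟨0, ?_, by simp, ?_⟩
      · rw [Function.iterate_zero, id]
        omega
      · simp only [Finset.range_zero, Finset.sum_empty, mul_zero, add_zero]
        exact_mod_cast h1
    | false =>
      rw [hble] at h
      obtain ⟨h1, h2⟩ := bound_aux hc hb
      have h3 : acc D f (nxt c) (s + 1000000000 / (3 * c) + 1) = true := h
      rw [h1] at h3
      obtain ⟨j, hj1, hj2, hj3⟩ := ih (Syr c) _ (Syr_odd c) h2 h3
      have hc1 : c ≠ 1 := by
        rintro rfl
        exact absurd hble (by decide)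
      refine ⟨j + 1, by rwa [Function.iterate_succ_apply], ?_, ?_⟩
      · intro i hi
        cases i with
        | zero => exact hc1
        | succ i =>
          rw [Function.iterate_succ_apply]
          exact hj2 i (by omega)
      · rw [Finset.sum_range_succ']
        simp only [Function.iterate_succ_apply, Function.iterate_zero, id] at hj3 ⊢
        have h4 : (1000000000 : ℝ) * (1 / (3 * (c : ℝ))) ≤ ((1000000000 / (3 * c) : ℕ) : ℝ) + 1 := by
          have h5 := Nat.lt_mul_div_succ 1000000000 (show 0 < 3 * c by omega)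
          have h6 : ((1000000000 : ℕ) : ℝ) ≤ ((3 * c * (1000000000 / (3 * c) + 1) : ℕ) : ℝ) := by
            exact_mod_cast h5.le
          have hc0 : (0 : ℝ) < c := by
            have : 0 < c := by omega
            exact_mod_cast this
          push_cast at h6
          rw [mul_one_div, div_le_iff₀ (by positivity)]
          push_cast
          linarith
        push_cast at hj3
        push_cast at h4
        linarith

lemma accAll_succ (B f j y : ℕ) : accAll B f (j + 1) y =
    Bool.rec (motive := fun _ => Bool) false (accAll B f j (y + 2 ^ (j + 1))) (accAll B f j y) := rfl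

lemma accAll_spec (B f : ℕ) : ∀ j y : ℕ, accAll B f j y = true → ∀ i < 2 ^ j, acc B f (y + 2 * i) 0 = true := by
  intro j
  induction j with
  | zero =>
    intro y h i hi
    have : i = 0 := by
      rw [pow_zero] at hi
      omega
    rw [this]
    exact h
  | succ j ih =>
    intro y h i hi
    rw [accAll_succ] at h
    cases h1 : accAll B f j y with
    | false =>
      rw [h1] at h
      exact absurd h (by simp)
    | true =>
      rw [h1] at h
      have h2 : accAll B f j (y + 2 ^ (j + 1)) = true := h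
      rw [pow_succ] at hi
      by_cases h3 : i < 2 ^ j
      · exact ih y h1 i h3
      · have h4 := ih _ h2 (i - 2 ^ j) (by omega)
        have h5 : y + 2 ^ (j + 1) + 2 * (i - 2 ^ j) = y + 2 * i := by
          rw [pow_succ]
          omega
        rwa [h5] at h4

end ColRes81
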