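import Pool.Agent.ColRes81.Basic

/-!
# The Collatz residue is bounded: counting the odd terms of a trajectory

`Syr` maps an odd number to the next odd term.  For a trajectory `c, Syr c, ...` whose first `q` terms are `≥ N₀` and
whose next term is `< N₀`, `g c q N` is the number of terms `< N` among the first `q`.
Main inequality `g_step`.
-/

set_option autoImplicit false

namespace ColRes81

/-- The next odd term. -/
def Syr (c : ℕ) : ℕ := ordCompl[2] (3 * c + 1)

lemma Syr_eq (c : ℕ) : 2 ^ ((3 * c + 1).factorization 2) * Syr c = 3 * c + 1 :=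
  Nat.ordProj_mul_ordCompl_eq_self _ _

lemma Syr_odd (c : ℕ) : Syr c % 2 = 1 := by
  have h : ¬ 2 ∣ Syr c := Nat.not_dvd_ordCompl Nat.prime_two (by omega)
  omega

lemma Syr_not_three (c : ℕ) : ¬ 3 ∣ Syr c := by
  intro h
  have h1 := Syr_eq c
  have h2 : 3 ∣ 3 * c + 1 := by
    rw [← h1]
    exact Dvd.dvd.mul_left h _
  omega

lemma Syr_iter_odd {c : ℕ} (hc : c % 2 = 1) (n : ℕ) : (Syr^[n] c) % 2 = 1 := by
  cases n with
  | zero => exact hc
  | succ n =>
    rw [Function.iterate_succ_apply']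
    exact Syr_odd _

lemma T_two_pow (j : ℕ) : ∀ u : ℕ, T^[j] (2 ^ j * u) = u ∧ o j (2 ^ j * u) = 0 := by
  induction j with
  | zero => intro u; simp [o]
  | succ j ih =>
    intro u
    have h1 : 2 ^ (j + 1) * u = 2 * (2 ^ j * u) := by ring
    rw [h1, Function.iterate_succ_apply, T_even]
    refine ⟨(ih u).1, ?_⟩
    simp only [o, T_even]
    rw [(ih u).2]
    omega

lemma Syr_T {c : ℕ} (hc : c % 2 = 1) : ∃ V, T^[V] c = Syr c ∧ o V c = 1 := by
  obtain ⟨v, hv⟩ : ∃ v, (3 * c + 1).factorization 2 = v := ⟨_, rfl⟩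
  have h1 := Syr_eq c
  rw [hv] at h1
  have h2 : v ≠ 0 := by
    intro h0
    rw [h0, pow_zero, one_mul] at h1
    have := Syr_odd c
    omega
  obtain ⟨w, rfl⟩ : ∃ w, v = w + 1 := Nat.exists_eq_succ_of_ne_zero h2
  obtain ⟨q, rfl⟩ : ∃ q, c = 2 * q + 1 := ⟨c / 2, by omega⟩
  have h3 : T (2 * q + 1) = 2 ^ w * Syr (2 * q + 1) := by
    rw [T_odd]
    have : 2 * (2 ^ w * Syr (2 * q + 1)) = 3 * (2 * q + 1) + 1 := by
      rw [← h1]; ring
    omega
  refine ⟨w + 1, ?_, ?_⟩
  · rw [Function.iterate_succ_apply, h3]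
    exact (T_two_pow w _).1
  · simp only [o]
    rw [h3, (T_two_pow w _).2]
    omega

lemma Syr_iter_T (n : ℕ) : ∀ c : ℕ, c % 2 = 1 → ∃ V, T^[V] c = Syr^[n] c ∧ o V c = n := by
  induction n with
  | zero => intro c _; exact ⟨0, rfl, rfl⟩
  | succ n ih =>
    intro c hc
    obtain ⟨V, h1, h2⟩ := Syr_T hc
    obtain ⟨V', h3, h4⟩ := ih (Syr c) (Syr_odd c)
    refine ⟨V + V', ?_, ?_⟩
    · rw [Function.iterate_succ_apply, add_comm V V', Function.iterate_add_apply, h1, h3]
    · rw [o_add, h1, h2, h4]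
      ring

/-- Landing: if `a = 2^j c` has at most `n` odd terms among the first `k`, then `Syr^n c` is small. -/
lemma landing {c j n k : ℕ} (hc : c % 2 = 1) (h : ¬ n + 1 ≤ o k (2 ^ j * c)) :
    ((Syr^[n] c : ℕ) : ℝ) + 1 ≤ (3 : ℝ) ^ n / 2 ^ k * ((2 ^ j * c : ℕ) : ℝ) + (3 / 2) ^ n := by
  obtain ⟨V, h1, h2⟩ := Syr_iter_T n c hc
  have h3 := T_two_pow j c
  have h4 : T^[j + V] (2 ^ j * c) = Syr^[n] c := by
    rw [add_comm, Function.iterate_add_apply, h3.1, h1]
  have h5 : o (j + V) (2 ^ j * c) = n := by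
    rw [o_add, h3.1, h3.2, h2]
    ring
  have h6 : k ≤ j + V := by
    by_contra hk
    apply h
    have h7 : o (j + V + 1) (2 ^ j * c) = n + 1 := by
      rw [o_add, h4, h5]
      have := Syr_iter_odd hc n
      simp only [o]
      omega
    rw [← h7]
    exact o_mono (by omega) _
  have h7 := T_growth (j + V) (2 ^ j * c)
  rw [h4, h5] at h7
  refine h7.trans ?_
  have h8 : (3 : ℝ) ^ n / 2 ^ (j + V) ≤ 3 ^ n / 2 ^ k := by
    apply div_le_div_of_nonneg_left (by positivity) (by positivity)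
    exact pow_le_pow_right₀ (by norm_num) h6
  have h9 : (0 : ℝ) ≤ ((2 ^ j * c : ℕ) : ℝ) := Nat.cast_nonneg _
  have := mul_le_mul_of_nonneg_right h8 h9
  linarith

/-- A trajectory that stays `≥ N₀` for `q` steps and then drops below `N₀`. -/
structure Orb (c q N₀ : ℕ) : Prop where
  odd : c % 2 = 1
  ge : ∀ i < q, N₀ ≤ Syr^[i] c
  lt : Syr^[q] c < N₀

/-- Number of terms `< N` among the first `q`. -/
def g (c q N : ℕ) : ℕ := ((Finset.range q).filter (fun i => Syr^[i] c < N)).card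

lemma Orb.inj {c q N₀ : ℕ} (h : Orb c q N₀) {i j : ℕ} (hi : i < q) (hj : j < q)
    (hij : Syr^[i] c = Syr^[j] c) : i = j := by
  by_contra hne
  wlog hlt : i < j generalizing i j
  · exact this hj hi hij.symm (Ne.symm hne) (by omega)
  have h1 : Syr^[(q - j) + i] c = Syr^[(q - j) + j] c := by
    rw [Function.iterate_add_apply, Function.iterate_add_apply, hij]
  rw [Nat.sub_add_cancel hj.le] at h1
  have h2 := h.ge (q - j + i) (by omega)
  have h3 := h.lt
  omega

lemma g_mono (c q : ℕ) {N N' : ℕ} (h : N ≤ N') : g c q N ≤ g c q N' := by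
  apply Finset.card_le_card
  intro i hi
  rw [Finset.mem_filter] at hi ⊢
  exact ⟨hi.1, hi.2.trans_le h⟩

lemma Orb.g_zero {c q N₀ : ℕ} (h : Orb c q N₀) {N : ℕ} (hN : N ≤ N₀) : g c q N = 0 := by
  unfold g
  rw [Finset.card_eq_zero, Finset.filter_eq_empty_iff]
  intro i hi
  rw [Finset.mem_range] at hi
  have := h.ge i hi
  omega

lemma two_pow_inj {j j' c c' : ℕ} (hc : c % 2 = 1) (hc' : c' % 2 = 1) (h : 2 ^ j * c = 2 ^ j' * c') :
    c = c' := by
  wlog hle : j ≤ j' generalizing j j' c c'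
  · exact (this hc' hc h.symm (by omega)).symm
  obtain ⟨d, rfl⟩ := Nat.exists_eq_add_of_le hle
  rw [pow_add, mul_assoc] at h
  have h1 : c = 2 ^ d * c' := Nat.eq_of_mul_eq_mul_left (by positivity) h
  cases d with
  | zero => simpa using h1
  | succ d =>
    exfalso
    rw [pow_succ] at h1
    have h2 : c = 2 * (2 ^ d * c') := by rw [h1]; ring
    omega

/-- The dyadic multiple of `c` in the window `[⌈N/2⌉, N)`. -/
lemma window {c N : ℕ} (hc : 1 ≤ c) (hN : c < N) :
    (N + 1) / 2 ≤ 2 ^ (Nat.log 2 ((N - 1) / c)) * c ∧ 2 ^ (Nat.log 2 ((N - 1) / c)) * c < N := by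
  have h0 : (N - 1) / c ≠ 0 := by
    have : 1 ≤ (N - 1) / c := (Nat.one_le_div_iff hc).2 (by omega)
    omega
  have h1 := Nat.pow_log_le_self 2 h0
  have h2 := Nat.lt_pow_succ_log_self (show 1 < 2 by norm_num) ((N - 1) / c)
  set L := Nat.log 2 ((N - 1) / c) with hL
  constructor
  · have h3 : (N - 1) < 2 ^ (L + 1) * c := by
      have := (Nat.div_lt_iff_lt_mul hc).1 h2
      exact this
    rw [pow_succ] at h3
    have h4 : 2 ^ L * 2 * c = 2 * (2 ^ L * c) := by ring
    omega
  · have h3 : 2 ^ L * c ≤ N - 1 := (Nat.le_div_iff_mul_le hc).1 h1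
    omega

theorem Orb.g_step {c q N₀ : ℕ} (h : Orb c q N₀) (n k N N' : ℕ)
    (hN' : (3 : ℝ) ^ n / 2 ^ k * N + (3 / 2) ^ n ≤ N' + 1) :
    g c q N ≤ (n + 1) + ((Finset.Ico ((N + 1) / 2) N).filter (slow k (n + 1))).card + g c q N' := by
  classical
  set a : ℕ → ℕ := fun i => 2 ^ (Nat.log 2 ((N - 1) / (Syr^[i] c))) * Syr^[i] c with ha
  set S := (Finset.range q).filter (fun i => Syr^[i] c < N) with hS
  have hodd := fun i => Syr_iter_odd h.odd i
  have hwin : ∀ i ∈ S, (N + 1) / 2 ≤ a i ∧ a i < N := by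
    intro i hi
    rw [hS, Finset.mem_filter] at hi
    exact window (by have := hodd i; omega) hi.2
  set S1 := ({0} : Finset ℕ) ∪ Finset.Ico (q - n) q with hS1
  set S2 := S.filter (fun i => i ≠ 0 ∧ n + 1 ≤ o k (a i)) with hS2
  set S3 := S.filter (fun i => i + n < q ∧ ¬ n + 1 ≤ o k (a i)) with hS3
  have hcov : S ⊆ (S1 ∪ S2) ∪ S3 := by
    intro i hi
    have hi' := hi
    rw [hS, Finset.mem_filter, Finset.mem_range] at hi'
    rw [Finset.mem_union, Finset.mem_union]
    by_cases h0 : i = 0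
    · left; left; rw [hS1, h0]; simp
    · by_cases h1 : n + 1 ≤ o k (a i)
      · left; right; rw [hS2, Finset.mem_filter]; exact ⟨hi, h0, h1⟩
      · by_cases h2 : i + n < q
        · right; rw [hS3, Finset.mem_filter]; exact ⟨hi, h2, h1⟩
        · left; left
          rw [hS1, Finset.mem_union, Finset.mem_Ico]
          right; omega
  have hc1 : S1.card ≤ n + 1 := by
    refine (Finset.card_union_le _ _).trans ?_
    rw [Finset.card_singleton, Nat.card_Ico]
    omega
  have hc2 : S2.card ≤ ((Finset.Ico ((N + 1) / 2) N).filter (slow k (n + 1))).card := by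
    apply Finset.card_le_card_of_injOn a
    · intro i hi
      rw [Finset.mem_coe, hS2, Finset.mem_filter] at hi
      rw [Finset.mem_coe, Finset.mem_filter, Finset.mem_Ico]
      refine ⟨hwin i hi.1, hi.2.2, ?_⟩
      intro h3
      rw [ha] at h3
      have h4 : 3 ∣ Syr^[i] c := by
        refine (Nat.Coprime.dvd_mul_left ?_).1 h3
        apply Nat.Coprime.pow_right
        norm_num
      obtain ⟨i', rfl⟩ : ∃ i', i = i' + 1 := Nat.exists_eq_succ_of_ne_zero hi.2.1
      rw [Function.iterate_succ_apply'] at h4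
      exact Syr_not_three _ h4
    · intro i hi j hj hij
      rw [Finset.mem_coe, hS2, Finset.mem_filter, hS, Finset.mem_filter, Finset.mem_range] at hi hj
      exact h.inj hi.1.1 hj.1.1 (two_pow_inj (hodd i) (hodd j) hij)
  have hc3 : S3.card ≤ g c q N' := by
    unfold g
    apply Finset.card_le_card_of_injOn (fun i => n + i)
    · intro i hi
      rw [Finset.mem_coe, hS3, Finset.mem_filter] at hi
      rw [Finset.mem_coe, Finset.mem_filter, Finset.mem_range]
      have hlt := hi.2.1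
      simp only
      refine ⟨by omega, ?_⟩
      rw [Function.iterate_add_apply]
      have h1 := landing (j := Nat.log 2 ((N - 1) / (Syr^[i] c))) (n := n) (k := k) (hodd i) hi.2.2
      have h2 : ((2 ^ (Nat.log 2 ((N - 1) / (Syr^[i] c))) * Syr^[i] c : ℕ) : ℝ) < N := by
        exact_mod_cast (hwin i hi.1).2
      have h3 : (0 : ℝ) < 3 ^ n / 2 ^ k := by positivity
      have h4 : (3 : ℝ) ^ n / 2 ^ k * ((2 ^ (Nat.log 2 ((N - 1) / (Syr^[i] c))) * Syr^[i] c : ℕ) : ℝ) <
          3 ^ n / 2 ^ k * N := mul_lt_mul_of_pos_left h2 h3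
      have h5 : ((Syr^[n] (Syr^[i] c) : ℕ) : ℝ) < (N' : ℝ) := by linarith
      exact_mod_cast h5
    · intro i _ j _ hij
      simpa using hij
  calc g c q N = S.card := rfl
    _ ≤ ((S1 ∪ S2) ∪ S3).card := Finset.card_le_card hcov
    _ ≤ (S1.card + S2.card) + S3.card :=
      (Finset.card_union_le _ _).trans (Nat.add_le_add_right (Finset.card_union_le _ _) _)
    _ ≤ _ := by omega

end ColRes81
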