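import Pool.Agent.ColRes81.Orbit

/-!
# The Collatz residue is bounded: the tail

`g(2^b) ≤ (97/50)^b`.
-/

set_option autoImplicit false

namespace ColRes81

lemma Mr_chernoff (k : ℕ) : ∀ m, (Mr k m : ℝ) ≤ (8 / 3) ^ k * (3 / 5) ^ m := by
  induction k with
  | zero =>
    intro m
    cases m with
    | zero => simp [Mr]
    | succ m => simp only [Mr, Nat.cast_zero]; positivity
  | succ k ih =>
    intro m
    cases m with
    | zero =>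
      simp only [Mr_zero, pow_zero, mul_one]
      push_cast
      exact pow_le_pow_left₀ (by norm_num) (by norm_num) _
    | succ m =>
      simp only [Mr]
      push_cast
      have h1 := ih (m + 1)
      have h2 := ih m
      calc (Mr k (m + 1) : ℝ) + Mr k m ≤ (8 / 3) ^ k * (3 / 5) ^ (m + 1) + (8 / 3) ^ k * (3 / 5) ^ m :=
            add_le_add h1 h2
        _ = (8 / 3) ^ (k + 1) * (3 / 5) ^ (m + 1) := by rw [pow_succ, pow_succ]; ring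

lemma tail_num (κ r : ℕ) (hr : r < 8) : (5 * κ + 1 : ℝ) + (2 ^ (4 + r) / 3 + 1) * (2 * ((8 / 3) ^ (8 * κ + 1) *
    (3 / 5) ^ (5 * κ + 1))) + (97 / 50) ^ (8 * κ + 5 + r) ≤ (97 / 50) ^ (8 * κ + 6 + r) := by
  have h1 : ((8 : ℝ) / 3) ^ (8 * κ + 1) * (3 / 5) ^ (5 * κ + 1) ≤ 8 / 5 * 200 ^ κ := by
    rw [pow_succ, pow_succ, pow_mul, pow_mul]
    have h2 : (((8 : ℝ) / 3) ^ 8) ^ κ * ((3 / 5) ^ 5) ^ κ ≤ 200 ^ κ := by
      rw [← mul_pow]
      exact pow_le_pow_left₀ (by positivity) (by norm_num) _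
    calc (((8 : ℝ) / 3) ^ 8) ^ κ * (8 / 3) * (((3 / 5) ^ 5) ^ κ * (3 / 5)) =
          8 / 5 * ((((8 : ℝ) / 3) ^ 8) ^ κ * ((3 / 5) ^ 5) ^ κ) := by ring
      _ ≤ _ := mul_le_mul_of_nonneg_left h2 (by norm_num)
  have h3 : (5 * κ + 1 : ℝ) ≤ 200 ^ κ := by
    induction κ with
    | zero => norm_num
    | succ κ ih =>
      have h4 : (1 : ℝ) ≤ 200 ^ κ := one_le_pow₀ (by norm_num)
      have h5 : (5 * κ + 1 : ℝ) ≤ 200 ^ κ := by
        apply ih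
        rw [pow_succ, pow_succ, pow_mul, pow_mul]
        have h2 : (((8 : ℝ) / 3) ^ 8) ^ κ * ((3 / 5) ^ 5) ^ κ ≤ 200 ^ κ := by
          rw [← mul_pow]
          exact pow_le_pow_left₀ (by positivity) (by norm_num) _
        calc (((8 : ℝ) / 3) ^ 8) ^ κ * (8 / 3) * (((3 / 5) ^ 5) ^ κ * (3 / 5)) =
              8 / 5 * ((((8 : ℝ) / 3) ^ 8) ^ κ * ((3 / 5) ^ 5) ^ κ) := by ring
          _ ≤ _ := mul_le_mul_of_nonneg_left h2 (by norm_num)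
      push_cast
      rw [pow_succ]
      linarith
  have h6 : (200 : ℝ) ^ κ ≤ (97 / 50) ^ (8 * κ) := by
    rw [pow_mul]
    exact pow_le_pow_left₀ (by norm_num) (by norm_num) _
  have h7 : (2 ^ (4 + r) / 3 + 1) * (16 / 5) + 1 ≤ (47 / 50 : ℝ) * (97 / 50) ^ (5 + r) := by
    interval_cases r <;> norm_num
  have h8 : (0 : ℝ) < 200 ^ κ := by positivity
  have h9 : (97 / 50 : ℝ) ^ (8 * κ + 5 + r) = (97 / 50) ^ (5 + r) * (97 / 50) ^ (8 * κ) := by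
    rw [← pow_add]; congr 1; ring
  have h10 : (97 / 50 : ℝ) ^ (8 * κ + 6 + r) = 97 / 50 * ((97 / 50) ^ (5 + r) * (97 / 50) ^ (8 * κ)) := by
    rw [← pow_add, ← pow_succ']; congr 1; ring
  rw [h9, h10]
  have h11 : (2 ^ (4 + r) / 3 + 1 : ℝ) * (2 * ((8 / 3) ^ (8 * κ + 1) * (3 / 5) ^ (5 * κ + 1))) ≤
      (2 ^ (4 + r) / 3 + 1) * (16 / 5) * 200 ^ κ := by
    have : (0 : ℝ) ≤ 2 ^ (4 + r) / 3 + 1 := by positivity
    calc _ ≤ (2 ^ (4 + r) / 3 + 1 : ℝ) * (2 * (8 / 5 * 200 ^ κ)) :=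
          mul_le_mul_of_nonneg_left (mul_le_mul_of_nonneg_left h1 (by norm_num)) this
      _ = _ := by ring
  have h12 : ((2 ^ (4 + r) / 3 + 1) * (16 / 5) + 1) * 200 ^ κ ≤
      (47 / 50 : ℝ) * (97 / 50) ^ (5 + r) * (97 / 50) ^ (8 * κ) :=
    mul_le_mul h7 h6 h8.le (by positivity)
  linarith

lemma pow_aux (κ : ℕ) (hκ : 1 ≤ κ) : (243 : ℝ) ^ κ + 8 ^ κ ≤ 256 ^ κ := by
  induction κ, hκ using Nat.le_induction with
  | base => norm_num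
  | succ κ _ ih =>
    rw [pow_succ, pow_succ, pow_succ]
    have h1 : (0 : ℝ) < 243 ^ κ := by positivity
    have h2 : (0 : ℝ) < 8 ^ κ := by positivity
    nlinarith

theorem Orb.tail {c q : ℕ} (h : Orb c q (2 ^ 20)) (b : ℕ) : (g c q (2 ^ b) : ℝ) ≤ (97 / 50) ^ b := by
  induction b using Nat.strong_induction_on with
  | _ b ih =>
    by_cases hb : b ≤ 20
    · rw [h.g_zero (Nat.pow_le_pow_right (by norm_num) hb), Nat.cast_zero]
      positivity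
    obtain ⟨κ, r, hr, hκ, rfl⟩ : ∃ κ r, r < 8 ∧ 1 ≤ κ ∧ b = 8 * κ + 6 + r :=
      ⟨(b - 6) / 8, (b - 6) % 8, Nat.mod_lt _ (by norm_num), by omega, by omega⟩
    have hcut : (3 : ℝ) ^ (5 * κ) / 2 ^ (8 * κ + 1) * ((2 ^ (8 * κ + 6 + r) : ℕ) : ℝ) + (3 / 2) ^ (5 * κ) ≤
        ((2 ^ (8 * κ + 5 + r) : ℕ) : ℝ) + 1 := by
      push_cast
      have h1 : (3 : ℝ) ^ (5 * κ) / 2 ^ (8 * κ + 1) * 2 ^ (8 * κ + 6 + r) = 243 ^ κ * 2 ^ (5 + r) := by
        have h2 : (2 : ℝ) ^ (8 * κ + 6 + r) = 2 ^ (8 * κ + 1) * 2 ^ (5 + r) := by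
          rw [← pow_add]; congr 1; ring
        rw [h2, pow_mul]
        field_simp
        norm_num
      have h3 : (3 / 2 : ℝ) ^ (5 * κ) ≤ 8 ^ κ := by
        rw [pow_mul]
        exact pow_le_pow_left₀ (by positivity) (by norm_num) _
      have h4 : (2 : ℝ) ^ (8 * κ + 5 + r) = 256 ^ κ * 2 ^ (5 + r) := by
        rw [show 8 * κ + 5 + r = 8 * κ + (5 + r) by ring, pow_add, pow_mul]
        norm_num
      have h5 := pow_aux κ hκ
      have h6 : (1 : ℝ) ≤ 2 ^ (5 + r) := one_le_pow₀ (by norm_num)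
      have h7 : (0 : ℝ) < 8 ^ κ := by positivity
      rw [h1, h4]
      nlinarith
    have h1 := h.g_step (5 * κ) (8 * κ + 1) _ _ hcut
    have h2 := slow_interval (8 * κ + 1) (5 * κ + 1) ((2 ^ (8 * κ + 6 + r) + 1) / 2) (2 ^ (8 * κ + 6 + r))
    have h3 := ih (8 * κ + 5 + r) (by omega)
    have h4 := tail_num κ r hr
    have h5 := Mr_chernoff (8 * κ + 1) (5 * κ + 1)
    have h6 : (((2 ^ (8 * κ + 6 + r) - (2 ^ (8 * κ + 6 + r) + 1) / 2) / (3 * 2 ^ (8 * κ + 1)) : ℕ) : ℝ) ≤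
        2 ^ (4 + r) / 3 := by
      have h7 : 2 ^ (8 * κ + 6 + r) - (2 ^ (8 * κ + 6 + r) + 1) / 2 ≤ 2 ^ (8 * κ + 5 + r) := by
        have : 2 ^ (8 * κ + 6 + r) = 2 * 2 ^ (8 * κ + 5 + r) := by rw [← pow_succ']; congr 1; ring
        omega
      have h8 : (2 ^ (8 * κ + 6 + r) - (2 ^ (8 * κ + 6 + r) + 1) / 2) / (3 * 2 ^ (8 * κ + 1)) ≤
          2 ^ (8 * κ + 5 + r) / (3 * 2 ^ (8 * κ + 1)) := Nat.div_le_div_right h7
      have h9 : ((2 ^ (8 * κ + 5 + r) / (3 * 2 ^ (8 * κ + 1)) : ℕ) : ℝ) ≤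
          ((2 ^ (8 * κ + 5 + r) : ℕ) : ℝ) / ((3 * 2 ^ (8 * κ + 1) : ℕ) : ℝ) := Nat.cast_div_le
      refine (Nat.cast_le.2 h8).trans (h9.trans (le_of_eq ?_))
      push_cast
      have h10 : (2 : ℝ) ^ (8 * κ + 5 + r) = 2 ^ (8 * κ + 1) * 2 ^ (4 + r) := by
        rw [← pow_add]; congr 1; ring
      rw [h10]
      field_simp
    have h11 : (((Finset.Ico ((2 ^ (8 * κ + 6 + r) + 1) / 2) (2 ^ (8 * κ + 6 + r))).filter
        (slow (8 * κ + 1) (5 * κ + 1))).card : ℝ) ≤ (2 ^ (4 + r) / 3 + 1) * (2 * ((8 / 3) ^ (8 * κ + 1) *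
          (3 / 5) ^ (5 * κ + 1))) := by
      refine (Nat.cast_le.2 h2).trans ?_
      push_cast
      apply mul_le_mul (by linarith) (by linarith) (by positivity) (by positivity)
    have h12 : (g c q (2 ^ (8 * κ + 6 + r)) : ℝ) ≤ ((5 * κ + 1 : ℕ) : ℝ) +
        (((Finset.Ico ((2 ^ (8 * κ + 6 + r) + 1) / 2) (2 ^ (8 * κ + 6 + r))).filter
        (slow (8 * κ + 1) (5 * κ + 1))).card : ℝ) + (g c q (2 ^ (8 * κ + 5 + r)) : ℝ) := by
      exact_mod_cast h1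
    push_cast at h12
    linarith

end ColRes81
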